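import Pool.Agent.Helper80.CP.Defs

/-!
Refutations of 3-CNF formulas in cutting planes with the saturation rule: definitions
(MP_86d903_lc).
-/

open Finset MP86d903

namespace Helper80.SR

/-- The saturation of an inequality of degree of falsity `D ≥ 0`: all coefficients are replaced
by the nearest number in the interval from `-D` to `D`, and the right hand side is chosen such
that the degree of falsity does not change. -/
def saturate {n : ℕ} (L : Ineq n) : Ineq n where
  coef v := max (-(falsity L)) (min (L.coef v) (falsity L))
  rhs := falsity L + ∑ v, min (max (-(falsity L)) (min (L.coef v) (falsity L))) 0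

/-- The rules by which a line of a derivation with `s` lines from `m` clauses is derived: the
`k`-th clause, the axioms `x v ≥ 0` and `-x v ≥ -1`, the combination of the lines `j`, `k` with
nonnegative integer factors `α`, `β`, the division of line `j` by `c`, and the saturation of
line `j`. -/
inductive Rule (n m s : ℕ)
  | clause (k : Fin m)
  | lower (v : Fin n)
  | upper (v : Fin n)
  | comb (j k : Fin s) (α β : ℕ)
  | div (j : Fin s) (c : ℕ)
  | sat (j : Fin s)

/-- Line `i` is derived from earlier lines by the given rule. -/
def Justified {n m s : ℕ} (F : Fin m → Clause n) (line : Fin s → Ineq n) (i : Fin s) :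
    Rule n m s → Prop
  | .clause k => line i = clauseIneq (F k)
  | .lower v => line i = ⟨Pi.single v 1, 0⟩
  | .upper v => line i = ⟨Pi.single v (-1), -1⟩
  | .comb j k α β => j < i ∧ k < i ∧
      line i = ⟨fun v => α * (line j).coef v + β * (line k).coef v,
        α * (line j).rhs + β * (line k).rhs⟩
  | .div j c => j < i ∧ 1 ≤ c ∧ (∀ v, (line j).coef v = c * (line i).coef v) ∧
      (line i).rhs = ⌈((line j).rhs : ℚ) / c⌉
  | .sat j => j < i ∧ 0 ≤ falsity (line j) ∧ line i = saturate (line j)

/-- A refutation of the formula `F` in cutting planes with the saturation rule. -/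
structure Refutation {n m : ℕ} (F : Fin m → Clause n) where
  size : ℕ
  line : Fin size → Ineq n
  rule : Fin size → Rule n m size
  justified : ∀ i, Justified F line i (rule i)
  falsum : ∃ i, line i = ⟨fun _ => 0, 1⟩

/-- Line `j` is a premise of the rule. -/
def Rule.HasPremise {n m s : ℕ} (j : Fin s) : Rule n m s → Prop
  | .comb k l _ _ => j = k ∨ j = l
  | .div k _ => j = k
  | .sat k => j = k
  | _ => False

/-- A path in a refutation: each line is followed by one of its premises. -/
def Refutation.IsPath {n m : ℕ} {F : Fin m → Clause n} (π : Refutation F)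
    (p : List (Fin π.size)) : Prop :=
  p.IsChain (fun i j => (π.rule i).HasPremise j)

/-- An inequality is wide if it has at least `ε n` nonzero coefficients. -/
def IsWide {n : ℕ} (ε : ℝ) (L : Ineq n) : Prop := ε * n ≤ {v | L.coef v ≠ 0}.ncard

/-- The half-integral point `y / 2` of the cube has at most `η n` integral coordinates, and it
is cut off by a step from `L` to `L'`: it satisfies the premise `L` but not the conclusion
`L'`. -/
def CutOff {n : ℕ} (η : ℝ) (L L' : Ineq n) (y : Fin n → ℤ) : Prop :=
  (∀ v, y v = 0 ∨ y v = 1 ∨ y v = 2) ∧ {v | y v ≠ 1}.ncard ≤ η * n ∧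
    2 * L.rhs ≤ ∑ v, L.coef v * y v ∧ ∑ v, L'.coef v * y v < 2 * L'.rhs

/-- Line `i` is a critical step: it is a wide line, derived by division or saturation, and
this step cuts off a half-integral point with at most `η n` integral coordinates. -/
def Refutation.IsCritical {n m : ℕ} {F : Fin m → Clause n} (π : Refutation F) (ε η : ℝ)
    (i : Fin π.size) : Prop :=
  IsWide ε (π.line i) ∧ ∃ j, ((∃ c, π.rule i = .div j c) ∨ π.rule i = .sat j) ∧
    ∃ y, CutOff η (π.line j) (π.line i) y

/-- Line `i` is a hard step: it is a wide line, derived by division, and this step cuts off a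
half-integral point with at most `η n` integral coordinates such that, in the conclusion, the
coefficients of all variables with the value one half are smaller than the degree of falsity
in absolute value. -/
def Refutation.IsHard {n m : ℕ} {F : Fin m → Clause n} (π : Refutation F) (ε η : ℝ)
    (i : Fin π.size) : Prop :=
  IsWide ε (π.line i) ∧ ∃ j c, π.rule i = .div j c ∧
    ∃ y, CutOff η (π.line j) (π.line i) y ∧
      ∀ v, y v = 1 → |(π.line i).coef v| < falsity (π.line i)

end Helper80.SR
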