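import Pool.Agent.Helper80.SR.Kill
import Pool.Agent.Helper80.SR.Defs
import Pool.Agent.Helper80.CP.Det

/-!
The deterministic part: refutations of a formula with an expanding hypergraph.
-/

open Finset MP86d903

namespace Helper80.SR

theorem exists_top {V : Type} [Fintype V] [DecidableEq V] (f : V → ℤ) :
    ∀ w ≤ Fintype.card V, ∃ H : Finset V, H.card = w ∧ ∀ i ∈ H, ∀ k ∉ H, f k ≤ f i := by
  intro w
  induction w with
  | zero =>
    intro _
    exact ⟨∅, rfl, fun i hi => absurd hi (notMem_empty i)⟩
  | succ w ih =>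
    intro hw
    obtain ⟨H, hH, htop⟩ := ih (by omega)
    have hne : Hᶜ.Nonempty := by
      rw [← card_pos, card_compl]
      omega
    obtain ⟨m, hm, hmax⟩ := exists_max_image Hᶜ f hne
    rw [mem_compl] at hm
    refine ⟨insert m H, by rw [card_insert_of_notMem hm, hH], ?_⟩
    intro i hi k hk
    rw [mem_insert, not_or] at hk
    rcases mem_insert.mp hi with rfl | hi
    · exact hmax k (mem_compl.mpr hk.2)
    · exact htop i hi k hk.2

variable {n m : ℕ}

/-- The true literals in `Z`. -/
theorem uu_hit (a : Fin n → ℤ) (Z A₀ : Finset (Fin n)) (ρ₀ : Fin n → Bool) :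
    ∀ i ∈ (Z ∩ A₀).filter (fun v => ρ₀ v = decide (0 ≤ a v)), uu a A₀ ρ₀ i = 2 := by
  intro i hi
  obtain ⟨h1, h2⟩ := mem_filter.mp hi
  have h3 := (mem_inter.mp h1).2
  unfold uu pt
  rw [if_pos h3, h2]
  by_cases h4 : 0 ≤ a i
  · simp [h4]
  · simp [h4]

/-- A light inequality with many hits holds at all points of the family. -/
theorem holds_light {vs ng : Fin m → Finset (Fin n)} {q k h : ℕ} {A₀ : Finset (Fin n)}
    {ρ₀ : Fin n → Bool} {δ : ℝ} (hδ : 0 < δ * n) (hh : δ * n ≤ h) (L : Ineq n)
    (Z : Finset (Fin n)) (hZ : ∀ v ∈ Z, (falsity L : ℝ) ≤ δ * n * |(L.coef v : ℝ)|)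
    (hhit : h ≤ hits Z (fun v => decide (0 ≤ L.coef v)) A₀ ρ₀) :
    Holds vs ng q A₀ ρ₀ k L.coef L.rhs := by
  classical
  set H := (Z ∩ A₀).filter (fun v => ρ₀ v = decide (0 ≤ L.coef v)) with hH
  have hcard : h ≤ H.card := hhit
  refine holds_killed (T := H) ?_ (uu_hit L.coef Z A₀ ρ₀) ?_
  · intro v hv
    exact (mem_inter.mp (mem_filter.mp hv).1).2
  · change falsity L ≤ _
    by_cases h0 : falsity L ≤ 0
    · exact h0.trans (Finset.sum_nonneg (fun v _ => abs_nonneg _))
    · rw [not_le] at h0
      have h0' : (0 : ℝ) < falsity L := by exact_mod_cast h0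
      have h1 : (H.card : ℝ) * (falsity L : ℝ) ≤ δ * n * ∑ v ∈ H, |(L.coef v : ℝ)| := by
        rw [Finset.mul_sum, ← nsmul_eq_mul]
        refine Finset.card_nsmul_le_sum _ _ _ (fun v hv => ?_)
        exact hZ v (mem_inter.mp (mem_filter.mp hv).1).1
      have h2 : δ * n ≤ (H.card : ℝ) := hh.trans (by exact_mod_cast hcard)
      have h3 : δ * n * (falsity L : ℝ) ≤ δ * n * ∑ v ∈ H, |(L.coef v : ℝ)| :=
        (mul_le_mul_of_nonneg_right h2 h0'.le).trans h1
      have h4 := le_of_mul_le_mul_left h3 hδ
      have h5 : ((falsity L : ℤ) : ℝ) ≤ ((∑ v ∈ H, |L.coef v| : ℤ) : ℝ) := by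
        push_cast
        exact h4
      exact_mod_cast h5

/-- The root for an inequality which is not light. -/
theorem root_top {A₀ : Finset (Fin n)} {ρ₀ : Fin n → Bool} {ε δ : ℝ} {w K : ℕ} (L : Ineq n)
    (hL : ¬ IsLight ε δ L) (hw : ε * n ≤ w) (hδ : 1 ≤ δ * n) {H : Finset (Fin n)}
    (hHw : H.card = w) (htop : ∀ i ∈ H, ∀ k ∉ H, |L.coef k| ≤ |L.coef i|)
    (hhit : 2 ≤ hits H (fun v => decide (0 ≤ L.coef v)) A₀ ρ₀)
    (hK : 19 * (A₀.card + w) ≤ K) : Root A₀ ρ₀ K L.coef (falsity L) := by
  classical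
  set T := (H ∩ A₀).filter (fun v => ρ₀ v = decide (0 ≤ L.coef v)) with hT
  have hT2 : 2 ≤ T.card := hhit
  have hTH : T ⊆ H := fun i hi => (mem_inter.mp (mem_filter.mp hi).1).1
  have hHne : H.Nonempty := by
    rw [← card_pos]
    have := card_le_card hTH
    omega
  obtain ⟨i₀, hi₀, hmin⟩ := exists_min_image H (fun i => |L.coef i|) hHne
  refine ⟨|L.coef i₀|, H, T, abs_nonneg _, ?_, fun i hi => htop i₀ hi₀ i hi, ?_,
    uu_hit L.coef H A₀ ρ₀, ?_, ?_⟩
  · intro v hv
    by_contra hvH
    apply hL
    unfold IsLight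
    have h1 : ((insert v H : Finset (Fin n)) : Set (Fin n)) ⊆
        {v | (falsity L : ℝ) ≤ δ * n * |(L.coef v : ℝ)|} := by
      intro u hu
      have h2 : falsity L ≤ |L.coef u| := by
        rcases mem_insert.mp (mem_coe.mp hu) with rfl | hu
        · exact hv
        · exact hv.trans (htop u hu v hvH)
      have h3 : (falsity L : ℝ) ≤ |(L.coef u : ℝ)| := by exact_mod_cast h2
      have h4 : |(L.coef u : ℝ)| ≤ δ * n * |(L.coef u : ℝ)| := by
        have := abs_nonneg (L.coef u : ℝ)
        nlinarith
      exact h3.trans h4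
    have h2 := Set.ncard_le_ncard h1 (Set.toFinite _)
    rw [Set.ncard_coe_finset, card_insert_of_notMem hvH, hHw] at h2
    have h3 : ((w + 1 : ℕ) : ℝ) ≤
        ({v | (falsity L : ℝ) ≤ δ * n * |(L.coef v : ℝ)|}.ncard : ℝ) := Nat.cast_le.mpr h2
    push_cast at h3
    linarith
  · intro v hv
    exact (mem_inter.mp (mem_filter.mp hv).1).2
  · have h1 : T.card • |L.coef i₀| ≤ ∑ i ∈ T, |L.coef i| :=
      Finset.card_nsmul_le_sum _ _ _ (fun i hi => hmin i (hTH hi))
    rw [nsmul_eq_mul] at h1
    have h2 : (2 : ℤ) ≤ T.card := by exact_mod_cast hT2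
    have h3 := abs_nonneg (L.coef i₀)
    nlinarith
  · have := card_union_le A₀ H
    omega

/-- The root for a narrow inequality. -/
theorem root_narrow {A₀ : Finset (Fin n)} {ρ₀ : Fin n → Bool} {w K : ℕ} (a : Fin n → ℤ) {D : ℤ}
    (hD : 0 < D) (hw : (univ.filter (fun i => a i ≠ 0)).card ≤ w)
    (hK : 19 * (A₀.card + w) ≤ K) : Root A₀ ρ₀ K a D := by
  classical
  refine ⟨0, univ.filter (fun i => a i ≠ 0), ∅, le_rfl, ?_, ?_, empty_subset _, ?_, ?_, ?_⟩
  · intro i hi
    refine mem_filter.mpr ⟨mem_univ _, fun h => ?_⟩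
    rw [h, abs_zero] at hi
    omega
  · intro i hi
    have : a i = 0 := by
      by_contra hcon
      exact hi (mem_filter.mpr ⟨mem_univ _, hcon⟩)
    rw [this, abs_zero]
  · intro i hi
    exact absurd hi (notMem_empty i)
  · simp
  · have := card_union_le A₀ (univ.filter (fun i => a i ≠ 0))
    omega

/-- The hard lines on a list of lines. -/
def hrd {F : Fin m → Clause n} (π : Refutation F) (ε η : ℝ) (p : List (Fin π.size)) :
    Set (Fin π.size) :=
  {i | i ∈ p ∧ π.IsHard ε η i}

/-- The lines on a path decrease. -/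
theorem path_le {F : Fin m → Clause n} (π : Refutation F) :
    ∀ (p : List (Fin π.size)) (j : Fin π.size), π.IsPath (j :: p) → ∀ x ∈ (j :: p), x ≤ j := by
  intro p
  induction p with
  | nil =>
    intro j _ x hx
    rw [List.mem_singleton] at hx
    rw [hx]
  | cons l p ihp =>
    intro j hjp x hx
    obtain ⟨h3, h4⟩ := List.isChain_cons_cons.mp hjp
    rcases List.mem_cons.mp hx with rfl | hx
    · exact le_rfl
    · refine (ihp l h4 x hx).trans ?_
      have h5 := π.justified j
      rcases hr' : π.rule j with c | v | v | ⟨j', l', α, β⟩ | ⟨j', c⟩ | j'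
      · rw [hr'] at h3
        exact h3.elim
      · rw [hr'] at h3
        exact h3.elim
      · rw [hr'] at h3
        exact h3.elim
      · rw [hr'] at h3 h5
        rcases h3 with rfl | rfl
        · exact h5.1.le
        · exact h5.2.1.le
      · rw [hr'] at h3 h5
        rw [show l = j' from h3]
        exact h5.1.le
      · rw [hr'] at h3 h5
        rw [show l = j' from h3]
        exact h5.1.le

theorem det (F : Fin m → Clause n) {R M w h t₀ s : ℕ} {ε δ η : ℝ}
    (hE : Exp (vsF F) R) (hR : 4 * M + 2 ≤ R) (hM : 21 * w + s + 2 ≤ M)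
    (hK : (3 * M : ℝ) ≤ η * n) (hw1 : ε * n ≤ w) (hw2 : ∀ k : ℕ, ε * n ≤ k → w ≤ k)
    (hδ : 1 ≤ δ * n) (hh : δ * n ≤ h) (hh2 : 2 ≤ h) (h74 : 74 * t₀ ≤ w) (hwn : w ≤ n)
    (hn : 0 < n)
    (hsmall : (2 : ℝ) ^ (δ * n) * (1 - w / (8 * n)) ^ t₀ * 2 ^ h < 2)
    (π : Refutation F) (X : Set (Fin π.size))
    (hX : ∀ i, π.IsCritical ε η i → ¬ π.IsHard ε η i → i ∈ X)
    (hXc : (X.ncard : ℝ) ≤ (2 : ℝ) ^ (δ * n)) :
    ∃ p, π.IsPath p ∧ (∀ i ∈ p, IsWide ε (π.line i) ∧ ¬ (i ∈ X ∧ IsLight ε δ (π.line i))) ∧
      s + 1 ≤ (hrd π ε η p).ncard := by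
  classical
  by_contra hpath0
  have hpath : ∀ p, π.IsPath p → (∀ x ∈ p, IsWide ε (π.line x) ∧
      ¬ (x ∈ X ∧ IsLight ε δ (π.line x))) → (hrd π ε η p).ncard < s + 1 := by
    intro p h1 h2
    by_contra h3
    exact hpath0 ⟨p, h1, h2, not_lt.mp h3⟩
  set q := 2 * M with hq
  have hδ0 : 0 < δ * n := by linarith
  set 𝓔 : Finset (Fin π.size) := univ.filter (fun i => i ∈ X) with h𝓔
  have h𝓔card : (𝓔.card : ℝ) ≤ (2 : ℝ) ^ (δ * n) := by
    rw [← Set.ncard_coe_finset]
    refine le_trans (le_of_eq ?_) hXc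
    congr 2
    ext i
    simp [h𝓔]
  choose H hHw htop using fun i : Fin π.size =>
    exists_top (fun v => |(π.line i).coef v|) w (by rw [Fintype.card_fin]; exact hwn)
  set Z : Fin π.size → Finset (Fin n) := fun i => if IsLight ε δ (π.line i) then
    univ.filter (fun v => (falsity (π.line i) : ℝ) ≤ δ * n * |((π.line i).coef v : ℝ)|)
    else H i with hZ
  have hZcard : ∀ i ∈ 𝓔, w ≤ (Z i).card := by
    intro i _
    by_cases h1 : IsLight ε δ (π.line i)
    · simp only [hZ, if_pos h1]
      apply hw2
      unfold IsLight at h1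
      rw [← Set.ncard_coe_finset]
      refine h1.trans (le_of_eq ?_)
      congr 2
      ext v
      simp
    · simp only [hZ, if_neg h1]
      exact (hHw i).ge
  have hw8 : 0 ≤ 1 - (w : ℝ) / (8 * n) := by
    have h1 : (w : ℝ) ≤ n := by exact_mod_cast hwn
    have h2 : (0 : ℝ) < n := by exact_mod_cast hn
    rw [sub_nonneg, div_le_one (by positivity)]
    linarith
  obtain ⟨A₀, ρ₀, hcl₀, hsm₀, hval₀, hhits⟩ := exists_root (ng := ngF F) (κ := Fin π.size)
    (q := q) (fun c => vsF_card F c) hE le_rfl (by omega) 𝓔 Z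
    (fun i v => decide (0 ≤ (π.line i).coef v)) (w := w) (h := h) (t := t₀)
    hZcard (by rw [Fintype.card_fin]; exact hwn) (by rw [Fintype.card_fin]; exact hn)
    (by omega) h74 (by
      rw [Fintype.card_fin]
      refine lt_of_le_of_lt ?_ hsmall
      refine mul_le_mul_of_nonneg_right ?_ (by positivity)
      exact mul_le_mul_of_nonneg_right h𝓔card (pow_nonneg hw8 _))
  have hA₀ : 19 * (A₀.card + w) ≤ 20 * w := by
    have := hsm₀.card_le
    omega
  -- light lines of `X`
  have hkill : ∀ (i : Fin π.size) (k : ℕ), i ∈ X → IsLight ε δ (π.line i) →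
      Holds (vsF F) (ngF F) q A₀ ρ₀ k (π.line i).coef (π.line i).rhs := by
    intro i k hi hl
    have h1 := hhits i (mem_filter.mpr ⟨mem_univ _, hi⟩)
    refine holds_light hδ0 hh (π.line i) (Z i) ?_ h1
    intro v hv
    simp only [hZ, if_pos hl] at hv
    exact (mem_filter.mp hv).2
  -- lines of `X` which are not light
  have hroot : ∀ (i : Fin π.size) (k : ℕ), i ∈ X → ¬ IsLight ε δ (π.line i) →
      Root A₀ ρ₀ (20 * w + k) (π.line i).coef (falsity (π.line i)) := by
    intro i k hi hl
    have h1 := hhits i (mem_filter.mpr ⟨mem_univ _, hi⟩)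
    simp only [hZ, if_neg hl] at h1
    exact root_top (π.line i) hl hw1 hδ (hHw i) (htop i) (by omega) (by omega)
  have hnarrow : ∀ i : Fin π.size, ¬ IsWide ε (π.line i) →
      (univ.filter (fun v => (π.line i).coef v ≠ 0)).card ≤ w := by
    intro i hi
    unfold IsWide at hi
    rw [not_le] at hi
    have h3 : ({v | (π.line i).coef v ≠ 0}.ncard : ℝ) ≤ w := hi.le.trans hw1
    have h4 : {v | (π.line i).coef v ≠ 0}.ncard ≤ w := by exact_mod_cast h3
    rw [← Set.ncard_coe_finset]
    refine le_trans (le_of_eq ?_) h4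
    congr 1
    ext v
    simp
  have hcut : ∀ (i j : Fin π.size) (k : ℕ) (A : Finset (Fin n)) (ρ : Fin n → Bool), k ≤ M →
      Fam (vsF F) (ngF F) q A₀ ρ₀ k A ρ →
      Holds (vsF F) (ngF F) q A₀ ρ₀ k (π.line j).coef (π.line j).rhs →
      ∑ v, (π.line i).coef v * pt A ρ v < 2 * (π.line i).rhs →
      CutOff η (π.line j) (π.line i) (pt A ρ) := by
    intro i j k A ρ hk hF hj hi
    refine ⟨?_, ?_, hj A ρ hF, hi⟩
    · intro v
      unfold pt
      split_ifs <;> simp
    · have h3 : {v | pt A ρ v ≠ 1}.ncard ≤ 3 * M := by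
        have h4 : {v | pt A ρ v ≠ 1} ⊆ (A : Set (Fin n)) := by
          intro v hv
          by_contra hvA
          exact hv (by
            unfold pt
            exact if_neg (fun hva => hvA hva))
        refine (Set.ncard_le_ncard h4 (Set.toFinite _)).trans ?_
        rw [Set.ncard_coe_finset]
        have := hF.2.2.1.card_le
        omega
      refine le_trans ?_ hK
      exact_mod_cast h3
  have hsatlem : ∀ (i j : Fin π.size) (K : ℕ), K + 1 ≤ M → 0 ≤ falsity (π.line j) →
      π.line i = saturate (π.line j) →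
      Holds (vsF F) (ngF F) q A₀ ρ₀ K (π.line j).coef (π.line j).rhs →
      (∀ A ρ, Fam (vsF F) (ngF F) q A₀ ρ₀ K A ρ →
        ∑ v, (π.line i).coef v * pt A ρ v < 2 * (π.line i).rhs → 0 < falsity (π.line i) →
        Root A₀ ρ₀ K (π.line i).coef (falsity (π.line i))) →
      Holds (vsF F) (ngF F) q A₀ ρ₀ K (π.line i).coef (π.line i).rhs := by
    intro i j K hKM hf0 heq hj hr A ρ hF
    by_contra hcon
    rw [not_le] at hcon
    have hrhs : (π.line i).rhs = falsity (π.line j) + ∑ v, min ((π.line i).coef v) 0 := by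
      rw [heq]
      rfl
    have hfeq : falsity (π.line i) = falsity (π.line j) := by
      have h1 : falsity (π.line i) = (π.line i).rhs - ∑ v, min ((π.line i).coef v) 0 := rfl
      rw [h1, hrhs]
      ring
    refine holds_sat (M := M) (R := R) (a := (π.line j).coef) (c := (π.line i).coef)
      (b := (π.line j).rhs) (b' := (π.line i).rhs) (D := falsity (π.line j))
      (fun c => vsF_card F c) hE le_rfl (by omega) hKM rfl hf0 (fun v => by rw [heq]; rfl)
      hrhs hF hcon (fun hpos => ?_) hj
    rw [← hfeq]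
    exact hr A ρ hF hcon (by omega)
  -- the main claim
  have main : ∀ (N : ℕ) (i : Fin π.size), (i : ℕ) = N → ∀ k ≤ s,
      (∀ p, π.IsPath (i :: p) → (∀ x ∈ (i :: p), IsWide ε (π.line x) ∧
        ¬ (x ∈ X ∧ IsLight ε δ (π.line x))) → (hrd π ε η (i :: p)).ncard ≤ k) →
      Holds (vsF F) (ngF F) q A₀ ρ₀ (20 * w + (s - k)) (π.line i).coef (π.line i).rhs := by
    intro N
    induction N using Nat.strong_induction_on with
    | _ N ih =>
    intro i hiN k hk hp
    have ih' : ∀ j : Fin π.size, j < i → ∀ k ≤ s,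
        (∀ p, π.IsPath (j :: p) → (∀ x ∈ (j :: p), IsWide ε (π.line x) ∧
          ¬ (x ∈ X ∧ IsLight ε δ (π.line x))) → (hrd π ε η (j :: p)).ncard ≤ k) →
        Holds (vsF F) (ngF F) q A₀ ρ₀ (20 * w + (s - k)) (π.line j).coef (π.line j).rhs := by
      intro j hj
      exact ih j (by rw [← hiN]; exact hj) j rfl
    have ih0 : ∀ j : Fin π.size, j < i →
        Holds (vsF F) (ngF F) q A₀ ρ₀ (20 * w) (π.line j).coef (π.line j).rhs := by
      intro j hj
      have h1 := ih' j hj s le_rfl (fun p hpp hgood => by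
        have := hpath _ hpp hgood
        omega)
      rwa [Nat.sub_self, add_zero] at h1
    have hjust := π.justified i
    by_cases hgood : IsWide ε (π.line i) ∧ ¬ (i ∈ X ∧ IsLight ε δ (π.line i))
    · -- a wide line which is not a light line of `X`
      have hsub : ∀ j p, (hrd π ε η (j :: p)).ncard ≤ (hrd π ε η (i :: j :: p)).ncard := by
        intro j p
        refine Set.ncard_le_ncard ?_ (Set.toFinite _)
        intro x hx
        exact ⟨List.mem_cons_of_mem _ hx.1, hx.2⟩
      have hext : ∀ j, (π.rule i).HasPremise j → ∀ p, π.IsPath (j :: p) →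
          (∀ x ∈ (j :: p), IsWide ε (π.line x) ∧ ¬ (x ∈ X ∧ IsLight ε δ (π.line x))) →
          π.IsPath (i :: j :: p) ∧ (hrd π ε η (i :: j :: p)).ncard ≤ k := by
        intro j hj p hpp hpg
        have h2 : π.IsPath (i :: j :: p) := List.isChain_cons_cons.mpr ⟨hj, hpp⟩
        refine ⟨h2, hp _ h2 ?_⟩
        intro x hx
        rcases List.mem_cons.mp hx with rfl | hx
        · exact hgood
        · exact hpg x hx
      have hsame : ∀ j, (π.rule i).HasPremise j → j < i →
          Holds (vsF F) (ngF F) q A₀ ρ₀ (20 * w + (s - k)) (π.line j).coef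
            (π.line j).rhs := by
        intro j hj hji
        refine ih' j hji k hk (fun p hpp hpg => ?_)
        exact (hsub j p).trans (hext j hj p hpp hpg).2
      rcases hr : π.rule i with c | v | v | ⟨j, l, α, β⟩ | ⟨j, c⟩ | j
      · rw [hr] at hjust
        have h1 : π.line i = clauseIneq (F c) := hjust
        rw [h1]
        exact holds_clause (by omega) (ngF_subset F) c _ _ (fun v => rfl) rfl
      · rw [hr] at hjust
        have h1 : π.line i = ⟨Pi.single v 1, 0⟩ := hjust
        rw [h1]
        exact holds_lower v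
      · rw [hr] at hjust
        have h1 : π.line i = ⟨Pi.single v (-1), -1⟩ := hjust
        rw [h1]
        exact holds_upper v
      · rw [hr] at hjust
        obtain ⟨hj, hl, h1⟩ : j < i ∧ l < i ∧ π.line i = ⟨fun v =>
          α * (π.line j).coef v + β * (π.line l).coef v,
          α * (π.line j).rhs + β * (π.line l).rhs⟩ := hjust
        have h2 := hsame j (by rw [hr]; exact Or.inl rfl) hj
        have h3 := hsame l (by rw [hr]; exact Or.inr rfl) hl
        rw [h1]
        exact holds_comb (α := α) (β := β) (fun v => rfl) rfl h2 h3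
      · rw [hr] at hjust
        obtain ⟨hj, hc, hcoef, hrhs⟩ : j < i ∧ 1 ≤ c ∧
          (∀ v, (π.line j).coef v = c * (π.line i).coef v) ∧
          (π.line i).rhs = ⌈((π.line j).rhs : ℚ) / c⌉ := hjust
        have hprem : (π.rule i).HasPremise j := by
          rw [hr]
          rfl
        by_cases hhard : π.IsHard ε η i
        · have hk1 : 1 ≤ k := by
            have h1 := hp [] (List.isChain_singleton i) (by
              intro x hx
              rw [List.mem_singleton] at hx
              rw [hx]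
              exact hgood)
            refine le_trans ?_ h1
            rw [Nat.one_le_iff_ne_zero, Ne, Set.ncard_eq_zero (Set.toFinite _)]
            intro h2
            have : i ∈ hrd π ε η [i] := ⟨List.mem_singleton_self i, hhard⟩
            rw [h2] at this
            exact this
          have hpj : ∀ p, π.IsPath (j :: p) → (∀ x ∈ (j :: p), IsWide ε (π.line x) ∧
              ¬ (x ∈ X ∧ IsLight ε δ (π.line x))) → (hrd π ε η (j :: p)).ncard ≤ k - 1 := by
            intro p hpp hpg
            have h1 := (hext j hprem p hpp hpg).2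
            have hnot : i ∉ hrd π ε η (j :: p) := by
              intro hmem
              exact absurd (path_le π p j hpp i hmem.1) (not_le.mpr hj)
            have h2 : hrd π ε η (i :: j :: p) = insert i (hrd π ε η (j :: p)) := by
              ext x
              simp only [hrd, Set.mem_ofPred_eq, Set.mem_insert_iff, List.mem_cons]
              constructor
              · rintro ⟨h3 | h3, h4⟩
                · exact Or.inl h3
                · exact Or.inr ⟨h3, h4⟩
              · rintro (h3 | ⟨h3, h4⟩)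
                · rw [h3]
                  exact ⟨Or.inl rfl, hhard⟩
                · exact ⟨Or.inr h3, h4⟩
            rw [h2, Set.ncard_insert_of_notMem hnot (Set.toFinite _)] at h1
            omega
          have h1 := ih' j hj (k - 1) (by omega) hpj
          have h2 : 20 * w + (s - (k - 1)) = 20 * w + (s - k) + 1 := by omega
          rw [h2] at h1
          exact holds_div (M := M) hE le_rfl (by omega) (by omega) hc hcoef hrhs h1
        · have h1 := hsame j hprem hj
          intro A ρ hF
          by_contra hcon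
          rw [not_le] at hcon
          have hco := hcut i j _ A ρ (by omega) hF h1 hcon
          have hcrit : i ∈ X :=
            hX i ⟨hgood.1, j, Or.inl ⟨c, hr⟩, pt A ρ, hco⟩ hhard
          have hnl : ¬ IsLight ε δ (π.line i) := fun h => hgood.2 ⟨hcrit, h⟩
          have hbig : ¬ ∀ v, pt A ρ v = 1 → |(π.line i).coef v| < falsity (π.line i) :=
            fun h => hhard ⟨hgood.1, j, c, hr, pt A ρ, hco, h⟩
          push Not at hbig
          obtain ⟨v, hv1, hv2⟩ := hbig
          have hvA : v ∉ A := by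
            intro hvA
            unfold pt at hv1
            rw [if_pos hvA] at hv1
            split_ifs at hv1 <;> omega
          exact holds_div_big (M := M) (fun c => vsF_card F c) hE le_rfl (by omega) (by omega)
            hc hcoef hrhs hF hcon hvA hv2 (hroot i _ hcrit hnl) h1
      · rw [hr] at hjust
        obtain ⟨hj, hf0, heq⟩ : j < i ∧ 0 ≤ falsity (π.line j) ∧
          π.line i = saturate (π.line j) := hjust
        have h1 := hsame j (by rw [hr]; rfl) hj
        refine hsatlem i j _ (by omega) hf0 heq h1 (fun A ρ hF hcon _ => ?_)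
        have hco := hcut i j _ A ρ (by omega) hF h1 hcon
        have hcrit : i ∈ X := by
          refine hX i ⟨hgood.1, j, Or.inr hr, pt A ρ, hco⟩ ?_
          rintro ⟨-, j', c', hr', -⟩
          rw [hr] at hr'
          cases hr'
        exact hroot i _ hcrit (fun h => hgood.2 ⟨hcrit, h⟩)
    · by_cases hbad : i ∈ X ∧ IsLight ε δ (π.line i)
      · exact hkill i _ hbad.1 hbad.2
      · have hnw : ¬ IsWide ε (π.line i) := fun h => hgood ⟨h, hbad⟩
        have hsupp := hnarrow i hnw
        have hreset : Holds (vsF F) (ngF F) q A₀ ρ₀ (20 * w) (π.line i).coef (π.line i).rhs →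
            Holds (vsF F) (ngF F) q A₀ ρ₀ (20 * w + (s - k)) (π.line i).coef
              (π.line i).rhs := by
          intro h1
          exact holds_reset (M := M) (w := w) (l := t₀) hE le_rfl (by omega) hcl₀ hsm₀
            (by omega) hsupp (h1.mono (by omega)) _
        rcases hr : π.rule i with c | v | v | ⟨j, l, α, β⟩ | ⟨j, c⟩ | j
        · rw [hr] at hjust
          have h1 : π.line i = clauseIneq (F c) := hjust
          rw [h1]
          exact holds_clause (by omega) (ngF_subset F) c _ _ (fun v => rfl) rfl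
        · rw [hr] at hjust
          have h1 : π.line i = ⟨Pi.single v 1, 0⟩ := hjust
          rw [h1]
          exact holds_lower v
        · rw [hr] at hjust
          have h1 : π.line i = ⟨Pi.single v (-1), -1⟩ := hjust
          rw [h1]
          exact holds_upper v
        · rw [hr] at hjust
          obtain ⟨hj, hl, h1⟩ : j < i ∧ l < i ∧ π.line i = ⟨fun v =>
            α * (π.line j).coef v + β * (π.line l).coef v,
            α * (π.line j).rhs + β * (π.line l).rhs⟩ := hjust
          apply hreset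
          rw [h1]
          exact holds_comb (α := α) (β := β) (fun v => rfl) rfl (ih0 j hj) (ih0 l hl)
        · rw [hr] at hjust
          obtain ⟨hj, hc, hcoef, hrhs⟩ : j < i ∧ 1 ≤ c ∧
            (∀ v, (π.line j).coef v = c * (π.line i).coef v) ∧
            (π.line i).rhs = ⌈((π.line j).rhs : ℚ) / c⌉ := hjust
          exact holds_narrow (M := M) (w := w) (l := t₀) hE le_rfl (by omega) hcl₀ hsm₀
            (by omega) (by omega) hc hcoef hrhs hsupp ((ih0 j hj).mono (by omega))
        · rw [hr] at hjust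
          obtain ⟨hj, hf0, heq⟩ : j < i ∧ 0 ≤ falsity (π.line j) ∧
            π.line i = saturate (π.line j) := hjust
          apply hreset
          exact hsatlem i j _ (by omega) hf0 heq (ih0 j hj) (fun A ρ hF hcon hpos =>
            root_narrow _ hpos hsupp hA₀)
  obtain ⟨i, hi⟩ := π.falsum
  have h1 := main i i rfl s le_rfl (fun p hpp hgood => by
    have := hpath _ hpp hgood
    omega)
  have h2 := h1 A₀ ρ₀ ⟨hcl₀, subset_refl _, hsm₀.mono (by omega), hval₀, fun _ _ => rfl⟩
  rw [hi] at h2
  simp at h2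

end Helper80.SR
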