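import Pool.Agent.Helper80.SR.Cl

/-!
Removal of at most three variables from a closed set: the rank drops and the rest is closed.
-/

open Finset MP86d903

namespace Helper80.SR

variable {ι V : Type} [DecidableEq ι] [Fintype V] [DecidableEq V] [Fintype ι]
  {vs : ι → Finset V}

/-- Sets which can be removed. -/
theorem remove {q : ℕ} {B R : Finset V} (hB : Closed vs q B) (hRB : R ⊆ B) (hne : R.Nonempty)
    (hR : ∀ S ⊆ inside vs B, S.Nonempty → (∀ c ∈ S, ∃ v ∈ vs c, v ∈ R) →
      S.card < (S.biUnion vs ∩ R).card) :
    Closed vs q (B \ R) ∧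
      (B \ R).card + 1 + (inside vs B).card ≤ B.card + (inside vs (B \ R)).card := by
  classical
  constructor
  · intro S hS hq hc
    set S1 := S.filter (fun c => ¬ vs c ⊆ B) with hS1
    set S2 := S.filter (fun c => vs c ⊆ B) with hS2
    have hcard : S2.card + S1.card = S.card := Finset.card_filter_add_card_filter_not _
    have h2B : S2.biUnion vs ⊆ B := by
      intro v hv
      rw [mem_biUnion] at hv
      obtain ⟨c, hc, hv⟩ := hv
      exact (mem_filter.mp hc).2 hv
    have hdisj : Disjoint (S1.biUnion vs \ B) (S2.biUnion vs ∩ R) := by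
      rw [Finset.disjoint_left]
      intro v hv hv'
      exact (mem_sdiff.mp hv).2 (hRB (mem_inter.mp hv').2)
    have hsub : (S1.biUnion vs \ B) ∪ (S2.biUnion vs ∩ R) ⊆ S.biUnion vs \ (B \ R) := by
      intro v hv
      rcases mem_union.mp hv with hv | hv
      · obtain ⟨h1, h2⟩ := mem_sdiff.mp hv
        refine mem_sdiff.mpr ⟨?_, fun h => h2 (mem_sdiff.mp h).1⟩
        exact biUnion_subset_biUnion_of_subset_left _ (filter_subset _ _) h1
      · obtain ⟨h1, h2⟩ := mem_inter.mp hv
        refine mem_sdiff.mpr ⟨?_, fun h => (mem_sdiff.mp h).2 h2⟩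
        exact biUnion_subset_biUnion_of_subset_left _ (filter_subset _ _) h1
    have hle : (S1.biUnion vs \ B).card + (S2.biUnion vs ∩ R).card ≤
        (S.biUnion vs \ (B \ R)).card := by
      rw [← card_union_of_disjoint hdisj]
      exact card_le_card hsub
    have hs1 : S1.Nonempty → S1.card < (S1.biUnion vs \ B).card := by
      intro h
      exact hB S1 h ((card_le_card (filter_subset _ _)).trans hq)
        (fun c hc => (mem_filter.mp hc).2)
    have hs2 : S2.Nonempty → S2.card < (S2.biUnion vs ∩ R).card := by
      intro h
      refine hR S2 (fun c hc => mem_inside.mpr (mem_filter.mp hc).2) h (fun c hcc => ?_)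
      obtain ⟨hcS, hcB⟩ := mem_filter.mp hcc
      by_contra hcon
      push Not at hcon
      exact hc c hcS (fun v hv => mem_sdiff.mpr ⟨hcB hv, hcon v hv⟩)
    rcases S1.eq_empty_or_nonempty with he1 | hn1
    · rcases S2.eq_empty_or_nonempty with he2 | hn2
      · rw [he1, he2] at hcard
        simp only [card_empty] at hcard
        have := card_pos.mpr hS
        omega
      · have := hs2 hn2
        rw [he1] at hcard
        simp only [card_empty] at hcard
        omega
    · have h1 := hs1 hn1
      rcases S2.eq_empty_or_nonempty with he2 | hn2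
      · rw [he2] at hcard
        simp only [card_empty] at hcard
        omega
      · have := hs2 hn2
        omega
  · set S := inside vs B \ inside vs (B \ R) with hS
    have h1 : S.card + (inside vs (B \ R)).card = (inside vs B).card :=
      card_sdiff_add_card_eq_card (inside_mono sdiff_subset)
    have h2 : (B \ R).card + R.card = B.card := card_sdiff_add_card_eq_card hRB
    have h3 : S.card < R.card := by
      rcases S.eq_empty_or_nonempty with he | hn
      · rw [he, card_empty]
        exact card_pos.mpr hne
      · refine lt_of_lt_of_le (hR S sdiff_subset hn (fun c hc => ?_))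
          (card_le_card inter_subset_right)
        obtain ⟨hc1, hc2⟩ := mem_sdiff.mp hc
        by_contra hcon
        push Not at hcon
        exact hc2 (mem_inside.mpr
          (fun v hv => mem_sdiff.mpr ⟨mem_inside.mp hc1 hv, hcon v hv⟩))
    omega

/-- The number of clauses inside `B` which contain a variable. -/
noncomputable def deg (vs : ι → Finset V) (B : Finset V) (v : V) : ℕ :=
  ((inside vs B).filter (fun c => v ∈ vs c)).card

theorem forget {q : ℕ} {B X : Finset V} (h3 : ∀ c, (vs c).card = 3) (hB : Closed vs q B)
    (hE : 19 * (inside vs B).card ≤ 10 * B.card) (hX : 19 * X.card < B.card) :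
    ∃ R ⊆ B, Disjoint R X ∧ R.card ≤ 3 ∧ Closed vs q (B \ R) ∧
      (B \ R).card + 1 + (inside vs B).card ≤ B.card + (inside vs (B \ R)).card := by
  classical
  by_contra hcon
  push Not at hcon
  -- no removable set of at most three variables
  have hno : ∀ R ⊆ B, Disjoint R X → R.card ≤ 3 → R.Nonempty →
      (∀ S ⊆ inside vs B, S.Nonempty → (∀ c ∈ S, ∃ v ∈ vs c, v ∈ R) →
        S.card < (S.biUnion vs ∩ R).card) → False := by
    intro R hRB hRX hR3 hne hR
    obtain ⟨h1, h2⟩ := remove hB hRB hne hR
    exact absurd h2 (not_le.mpr (hcon R hRB hRX hR3 h1))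
  have hdeg : ∀ v c, c ∈ inside vs B → v ∈ vs c → 0 < deg vs B v := by
    intro v c hc hv
    exact card_pos.mpr ⟨c, mem_filter.mpr ⟨hc, hv⟩⟩
  have hone : ∀ v c c', deg vs B v = 1 → c ∈ inside vs B → c' ∈ inside vs B → v ∈ vs c →
      v ∈ vs c' → c = c' := by
    intro v c c' h hc hc' hv hv'
    obtain ⟨d, hd⟩ := card_eq_one.mp h
    have h1 : c ∈ (inside vs B).filter (fun c => v ∈ vs c) := mem_filter.mpr ⟨hc, hv⟩
    have h2 : c' ∈ (inside vs B).filter (fun c => v ∈ vs c) := mem_filter.mpr ⟨hc', hv'⟩
    rw [hd, mem_singleton] at h1 h2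
    rw [h1, h2]
  -- no isolated vertices
  have hi : ∀ v ∈ B \ X, deg vs B v ≠ 0 := by
    intro v hv h0
    obtain ⟨hvB, hvX⟩ := mem_sdiff.mp hv
    refine hno {v} (singleton_subset_iff.mpr hvB) (disjoint_singleton_left.mpr hvX) (by simp)
      (singleton_nonempty v) (fun S hS hne hm => ?_)
    obtain ⟨c, hc⟩ := hne
    obtain ⟨w, hw, hwv⟩ := hm c hc
    rw [mem_singleton] at hwv
    rw [hwv] at hw
    have := hdeg v c (hS hc) hw
    omega
  -- no two private vertices in a clause
  have hii : ∀ v ∈ B \ X, ∀ v' ∈ B \ X, deg vs B v = 1 → deg vs B v' = 1 →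
      ∀ c ∈ inside vs B, v ∈ vs c → v' ∈ vs c → v = v' := by
    intro v hv v' hv' hd hd' c hc hvc hvc'
    by_contra hne
    obtain ⟨hvB, hvX⟩ := mem_sdiff.mp hv
    obtain ⟨hvB', hvX'⟩ := mem_sdiff.mp hv'
    refine hno {v, v'} ?_ ?_ ?_ (insert_nonempty _ _) (fun S hS hSne hm => ?_)
    · intro w hw
      rcases mem_insert.mp hw with rfl | hw
      · exact hvB
      · rw [mem_singleton.mp hw]
        exact hvB'
    · rw [disjoint_insert_left, disjoint_singleton_left]
      exact ⟨hvX, hvX'⟩
    · rw [card_pair hne]
      norm_num
    · have hSc : S = {c} := by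
        refine Finset.Subset.antisymm (fun d hd1 => ?_) (fun d hd1 => ?_)
        · rw [mem_singleton]
          obtain ⟨w, hw, hwR⟩ := hm d hd1
          rcases mem_insert.mp hwR with rfl | hwR
          · exact hone _ d c hd (hS hd1) hc hw hvc
          · rw [mem_singleton.mp hwR] at hw
            exact hone _ d c hd' (hS hd1) hc hw hvc'
        · rw [mem_singleton] at hd1
          obtain ⟨d', hd'1⟩ := hSne
          have h5 : d' = c := by
            obtain ⟨w, hw, hwR⟩ := hm d' hd'1
            rcases mem_insert.mp hwR with rfl | hwR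
            · exact hone _ d' c hd (hS hd'1) hc hw hvc
            · rw [mem_singleton.mp hwR] at hw
              exact hone _ d' c hd' (hS hd'1) hc hw hvc'
          rw [hd1, ← h5]
          exact hd'1
      rw [hSc, card_singleton, singleton_biUnion]
      have h5 : ({v, v'} : Finset V) ⊆ vs c ∩ {v, v'} := by
        intro w hw
        refine mem_inter.mpr ⟨?_, hw⟩
        rcases mem_insert.mp hw with rfl | hw
        · exact hvc
        · rw [mem_singleton.mp hw]
          exact hvc'
      have h6 := card_le_card h5
      rw [card_pair hne] at h6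
      omega
  -- no vertex of degree two with private vertices in both clauses
  have hiii : ∀ u ∈ B \ X, ∀ v ∈ B \ X, ∀ v' ∈ B \ X, deg vs B u = 2 → deg vs B v = 1 →
      deg vs B v' = 1 → ∀ c ∈ inside vs B, ∀ c' ∈ inside vs B, c ≠ c' → u ∈ vs c →
      u ∈ vs c' → v ∈ vs c → v' ∈ vs c' → False := by
    intro u hu v hv v' hv' hdu hdv hdv' c hc c' hc' hcc huc huc' hvc hvc'
    obtain ⟨huB, huX⟩ := mem_sdiff.mp hu
    obtain ⟨hvB, hvX⟩ := mem_sdiff.mp hv
    obtain ⟨hvB', hvX'⟩ := mem_sdiff.mp hv'
    have huv : u ≠ v := by
      rintro rfl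
      omega
    have huv' : u ≠ v' := by
      rintro rfl
      omega
    have hvv' : v ≠ v' := by
      rintro rfl
      exact hcc (hone _ c c' hdv hc hc' hvc hvc')
    have htwo : ∀ d ∈ inside vs B, u ∈ vs d → d = c ∨ d = c' := by
      intro d hd hud
      by_contra hcon2
      push Not at hcon2
      have h5 : ({c, c', d} : Finset ι) ⊆ (inside vs B).filter (fun c => u ∈ vs c) := by
        intro e he
        simp only [mem_insert, mem_singleton] at he
        rcases he with rfl | rfl | rfl
        · exact mem_filter.mpr ⟨hc, huc⟩
        · exact mem_filter.mpr ⟨hc', huc'⟩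
        · exact mem_filter.mpr ⟨hd, hud⟩
      have h6 := card_le_card h5
      rw [card_eq_three.mpr ⟨c, c', d, hcc, hcon2.1.symm, hcon2.2.symm, rfl⟩] at h6
      have h7 : ((inside vs B).filter (fun c => u ∈ vs c)).card = 2 := hdu
      omega
    have hclause : ∀ d ∈ inside vs B, (∃ w ∈ vs d, w ∈ ({u, v, v'} : Finset V)) →
        d = c ∨ d = c' := by
      rintro d hd ⟨w, hw, hwR⟩
      simp only [mem_insert, mem_singleton] at hwR
      rcases hwR with rfl | rfl | rfl
      · exact htwo d hd hw
      · exact Or.inl (hone _ d c hdv hd hc hw hvc)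
      · exact Or.inr (hone _ d c' hdv' hd hc' hw hvc')
    refine hno {u, v, v'} ?_ ?_ ?_ (insert_nonempty _ _) (fun S hS hSne hm => ?_)
    · intro w hw
      simp only [mem_insert, mem_singleton] at hw
      rcases hw with rfl | rfl | rfl
      · exact huB
      · exact hvB
      · exact hvB'
    · rw [disjoint_insert_left, disjoint_insert_left, disjoint_singleton_left]
      exact ⟨huX, hvX, hvX'⟩
    · exact card_le_three
    · have hSsub : S ⊆ {c, c'} := by
        intro d hd
        rw [mem_insert, mem_singleton]
        exact hclause d (hS hd) (hm d hd)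
      by_cases h1 : c ∈ S
      · by_cases h2 : c' ∈ S
        · have hSe : S = {c, c'} := by
            refine Finset.Subset.antisymm hSsub (fun d hd => ?_)
            simp only [mem_insert, mem_singleton] at hd
            rcases hd with rfl | rfl
            · exact h1
            · exact h2
          rw [hSe, card_pair hcc]
          have h5 : ({u, v, v'} : Finset V) ⊆ ({c, c'} : Finset ι).biUnion vs ∩ {u, v, v'} := by
            intro w hw
            refine mem_inter.mpr ⟨?_, hw⟩
            rw [mem_biUnion]
            simp only [mem_insert, mem_singleton] at hw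
            rcases hw with rfl | rfl | rfl
            · exact ⟨c, by simp, huc⟩
            · exact ⟨c, by simp, hvc⟩
            · exact ⟨c', by simp, hvc'⟩
          have h6 := card_le_card h5
          rw [card_eq_three.mpr ⟨u, v, v', huv, huv', hvv', rfl⟩] at h6
          omega
        · have hSe : S = {c} := by
            refine Finset.Subset.antisymm (fun d hd => ?_) (singleton_subset_iff.mpr h1)
            rcases mem_insert.mp (hSsub hd) with h | h
            · rw [mem_singleton]
              exact h
            · rw [mem_singleton] at h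
              rw [h] at hd
              exact absurd hd h2
          rw [hSe, card_singleton, singleton_biUnion]
          have h5 : ({u, v} : Finset V) ⊆ vs c ∩ {u, v, v'} := by
            intro w hw
            simp only [mem_insert, mem_singleton] at hw
            rcases hw with rfl | rfl
            · exact mem_inter.mpr ⟨huc, by simp⟩
            · exact mem_inter.mpr ⟨hvc, by simp⟩
          have h6 := card_le_card h5
          rw [card_pair huv] at h6
          omega
      · have h2 : c' ∈ S := by
          obtain ⟨d, hd⟩ := hSne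
          rcases mem_insert.mp (hSsub hd) with h | h
          · rw [h] at hd
            exact absurd hd h1
          · rw [mem_singleton] at h
            rw [← h]
            exact hd
        have hSe : S = {c'} := by
          refine Finset.Subset.antisymm (fun d hd => ?_) (singleton_subset_iff.mpr h2)
          rcases mem_insert.mp (hSsub hd) with h | h
          · rw [h] at hd
            exact absurd hd h1
          · exact h
        rw [hSe, card_singleton, singleton_biUnion]
        have h5 : ({u, v'} : Finset V) ⊆ vs c' ∩ {u, v, v'} := by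
          intro w hw
          simp only [mem_insert, mem_singleton] at hw
          rcases hw with rfl | rfl
          · exact mem_inter.mpr ⟨huc', by simp⟩
          · exact mem_inter.mpr ⟨hvc', by simp⟩
        have h6 := card_le_card h5
        rw [card_pair huv'] at h6
        omega
  -- the charges
  set P : ι → Prop := fun c => ∃ b ∈ B \ X, b ∈ vs c ∧ deg vs B b = 1 with hP
  set wt : ι → V → ℕ := fun c v =>
    if P c then (if v ∈ B \ X ∧ deg vs B v = 1 then 5 else 2) else 3 with hwt
  have hup : ∀ c ∈ inside vs B, ∑ v ∈ vs c, wt c v ≤ 9 := by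
    intro c hc
    by_cases hPc : P c
    · obtain ⟨b, hb, hbc, hdb⟩ := hPc
      have h5 : ∑ v ∈ vs c, wt c v = ∑ v ∈ vs c, ((if v = b then 3 else 0) + 2) := by
        refine sum_congr rfl (fun v hv => ?_)
        have h6 : P c := ⟨b, hb, hbc, hdb⟩
        simp only [hwt, if_pos h6]
        by_cases hvb : v = b
        · rw [hvb, if_pos ⟨hb, hdb⟩, if_pos rfl]
        · rw [if_neg hvb, if_neg]
          rintro ⟨h7, h8⟩
          exact hvb (hii v h7 b hb h8 hdb c hc hv hbc)
      rw [h5, sum_add_distrib, sum_ite_eq' (vs c) b (fun _ => 3), if_pos hbc, sum_const, h3 c]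
      norm_num
    · have h5 : ∑ v ∈ vs c, wt c v = ∑ v ∈ vs c, 3 := by
        refine sum_congr rfl (fun v hv => ?_)
        simp only [hwt, if_neg hPc]
      rw [h5, sum_const, h3 c]
      norm_num
  have hlow : ∀ v ∈ B \ X, 5 ≤ ∑ c ∈ (inside vs B).filter (fun c => v ∈ vs c), wt c v := by
    intro v hv
    have h0 := hi v hv
    have h2wt : ∀ c, 2 ≤ wt c v := by
      intro c
      simp only [hwt]
      split_ifs <;> norm_num
    by_cases h1 : deg vs B v = 1
    · obtain ⟨d, hd⟩ := card_eq_one.mp h1
      rw [hd, sum_singleton]
      have h5 : d ∈ (inside vs B).filter (fun c => v ∈ vs c) := by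
        rw [hd]
        exact mem_singleton_self d
      have h6 : P d := ⟨v, hv, (mem_filter.mp h5).2, h1⟩
      simp only [hwt, if_pos h6, if_pos (And.intro hv h1)]
      exact le_refl _
    · by_cases h2 : deg vs B v = 2
      · obtain ⟨c, c', hcc, hd⟩ := card_eq_two.mp h2
        have h5 : c ∈ (inside vs B).filter (fun c => v ∈ vs c) := by
          rw [hd]
          simp
        have h6 : c' ∈ (inside vs B).filter (fun c => v ∈ vs c) := by
          rw [hd]
          simp
        obtain ⟨hc, hvc⟩ := mem_filter.mp h5
        obtain ⟨hc', hvc'⟩ := mem_filter.mp h6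
        rw [hd, sum_pair hcc]
        have h7 : ¬ (P c ∧ P c') := by
          rintro ⟨⟨b, hb, hbc, hdb⟩, ⟨b', hb', hbc', hdb'⟩⟩
          exact hiii v hv b hb b' hb' h2 hdb hdb' c hc c' hc' hcc hvc hvc' hbc hbc'
        by_cases h8 : P c
        · have h9 : ¬ P c' := fun h => h7 ⟨h8, h⟩
          have e1 : wt c' v = 3 := by
            simp only [hwt, if_neg h9]
          have := h2wt c
          omega
        · have e1 : wt c v = 3 := by
            simp only [hwt, if_neg h8]
          have := h2wt c'
          omega
      · have h5 : ((inside vs B).filter (fun c => v ∈ vs c)).card * 2 ≤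
            ∑ c ∈ (inside vs B).filter (fun c => v ∈ vs c), wt c v := by
          rw [← smul_eq_mul]
          exact card_nsmul_le_sum _ _ _ (fun c _ => h2wt c)
        have h6 : 3 ≤ ((inside vs B).filter (fun c => v ∈ vs c)).card := by
          have h7 : ((inside vs B).filter (fun c => v ∈ vs c)).card = deg vs B v := rfl
          omega
        omega
  have hdouble : (B \ X).card * 5 ≤ (inside vs B).card * 9 := by
    calc (B \ X).card * 5
        ≤ ∑ v ∈ B \ X, ∑ c ∈ (inside vs B).filter (fun c => v ∈ vs c), wt c v := by
          rw [← smul_eq_mul]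
          exact card_nsmul_le_sum _ _ _ hlow
      _ = ∑ v ∈ B \ X, ∑ c ∈ inside vs B, if v ∈ vs c then wt c v else 0 := by
          refine sum_congr rfl (fun v _ => ?_)
          rw [sum_filter]
      _ = ∑ c ∈ inside vs B, ∑ v ∈ B \ X, if v ∈ vs c then wt c v else 0 := sum_comm
      _ ≤ ∑ c ∈ inside vs B, ∑ v ∈ vs c, wt c v := by
          refine sum_le_sum (fun c _ => ?_)
          rw [← sum_filter]
          refine sum_le_sum_of_subset ?_
          intro v hv
          exact (mem_filter.mp hv).2
      _ ≤ (inside vs B).card * 9 := by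
          rw [← smul_eq_mul]
          exact sum_le_card_nsmul _ _ _ hup
  have h5 : B.card ≤ (B \ X).card + X.card := card_le_card_sdiff_add_card
  omega

end Helper80.SR
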