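import Pool.Agent.Helper80.SR.Split
import Pool.Agent.Helper80.SR.Forget

/-!
The family of half-integral points, and the rules which do not need any more memory.
-/

open Finset MP86d903

namespace Helper80.SR

variable {ι V : Type} [DecidableEq ι] [Fintype V] [DecidableEq V] [Fintype ι]
  (vs ng : ι → Finset V)

/-- The closed sets of rank at most `k` over `A₀` with a valid assignment which extends `ρ₀`. -/
def Fam (q : ℕ) (A₀ : Finset V) (ρ₀ : V → Bool) (k : ℕ) (A : Finset V) (ρ : V → Bool) : Prop :=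
  Closed vs q A ∧ A₀ ⊆ A ∧ Sm vs k A ∧ Valid vs ng ρ A ∧ ∀ i ∈ A₀, ρ i = ρ₀ i

/-- The inequality `∑ a i * x i ≥ b` holds at all points of the family. -/
def Holds (q : ℕ) (A₀ : Finset V) (ρ₀ : V → Bool) (k : ℕ) (a : V → ℤ) (b : ℤ) : Prop :=
  ∀ A ρ, Fam vs ng q A₀ ρ₀ k A ρ → 2 * b ≤ ∑ i, a i * pt A ρ i

variable {vs ng} {q : ℕ} {A₀ : Finset V} {ρ₀ : V → Bool} {k : ℕ}

theorem Fam.mono {k l : ℕ} (h : k ≤ l) {A : Finset V} {ρ : V → Bool}
    (hF : Fam vs ng q A₀ ρ₀ k A ρ) : Fam vs ng q A₀ ρ₀ l A ρ :=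
  ⟨hF.1, hF.2.1, hF.2.2.1.mono h, hF.2.2.2⟩

theorem Holds.mono {k l : ℕ} (h : k ≤ l) {a : V → ℤ} {b : ℤ}
    (hH : Holds vs ng q A₀ ρ₀ l a b) : Holds vs ng q A₀ ρ₀ k a b :=
  fun A ρ hF => hH A ρ (hF.mono h)

/-- Clauses hold at all points of the family. -/
theorem holds_clause (hq : 1 ≤ q) (hng : ∀ c, ng c ⊆ vs c) (c : ι) (a : V → ℤ) (b : ℤ)
    (ha : ∀ i, a i = if i ∈ ng c then -1 else if i ∈ vs c then 1 else 0)
    (hb : b = 1 - (ng c).card) : Holds vs ng q A₀ ρ₀ k a b := by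
  classical
  rintro A ρ ⟨hcl, -, -, hval, -⟩
  -- value of the literal at i, doubled
  set lv : V → ℤ := fun i => if i ∈ ng c then 2 - pt A ρ i else pt A ρ i with hlv
  have hsum : ∑ i, a i * pt A ρ i = ∑ i ∈ vs c, lv i - 2 * (ng c).card := by
    have h1 : ∀ i, a i * pt A ρ i =
        (if i ∈ vs c then lv i else 0) - 2 * (if i ∈ ng c then 1 else 0) := by
      intro i
      rw [ha i]
      by_cases h1 : i ∈ ng c
      · rw [if_pos h1, if_pos (hng c h1), if_pos h1]
        simp only [hlv, if_pos h1]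
        ring
      · rw [if_neg h1, if_neg h1]
        by_cases h2 : i ∈ vs c
        · rw [if_pos h2, if_pos h2]
          simp only [hlv, if_neg h1]
          ring
        · rw [if_neg h2, if_neg h2]
          ring
    rw [sum_congr rfl (fun i _ => h1 i), sum_sub_distrib, ← mul_sum]
    simp
  have hlv0 : ∀ i, 0 ≤ lv i := by
    intro i
    simp only [hlv]
    have h1 := pt_nonneg A ρ i
    have h2 := pt_le_two A ρ i
    split_ifs <;> omega
  have hmain : 2 ≤ ∑ i ∈ vs c, lv i := by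
    by_cases hcA : vs c ⊆ A
    · obtain ⟨i, hi, hl⟩ := hval c hcA
      have h2 : lv i = 2 := by
        simp only [hlv, pt, if_pos (hcA hi)]
        unfold Lit at hl
        by_cases h1 : i ∈ ng c
        · simp only [h1, decide_true, Bool.not_true] at hl
          simp [h1, hl]
        · simp only [h1, decide_false, Bool.not_false] at hl
          simp [h1, hl]
      have := single_le_sum (f := lv) (fun j _ => hlv0 j) hi
      omega
    · have h1 := hcl {c} (singleton_nonempty _) (by rw [card_singleton]; exact hq) (by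
        intro c' hc'
        rw [mem_singleton] at hc'
        rw [hc']
        exact hcA)
      rw [card_singleton, singleton_biUnion] at h1
      have h2 : ∀ i ∈ vs c \ A, lv i = 1 := by
        intro i hi
        have := (mem_sdiff.mp hi).2
        simp only [hlv, pt, if_neg this]
        split_ifs <;> norm_num
      have h3 : ∑ i ∈ vs c \ A, lv i ≤ ∑ i ∈ vs c, lv i :=
        sum_le_sum_of_subset_of_nonneg sdiff_subset (fun i _ _ => hlv0 i)
      rw [sum_congr rfl h2] at h3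
      simp only [sum_const, nsmul_eq_mul, mul_one] at h3
      have h4 : (2 : ℤ) ≤ ((vs c \ A).card : ℤ) := by
        have : 2 ≤ (vs c \ A).card := by omega
        exact_mod_cast this
      omega
  rw [hsum, hb]
  omega

theorem holds_lower (v : V) : Holds vs ng q A₀ ρ₀ k (Pi.single v 1) 0 := by
  intro A ρ _
  rw [Finset.sum_eq_single v]
  · have := pt_nonneg A ρ v
    simp
    exact this
  · intro i _ hi
    rw [Pi.single_eq_of_ne hi, zero_mul]
  · intro h
    exact absurd (mem_univ v) h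

theorem holds_upper (v : V) : Holds vs ng q A₀ ρ₀ k (Pi.single v (-1)) (-1) := by
  intro A ρ _
  rw [Finset.sum_eq_single v]
  · have := pt_le_two A ρ v
    simp
    omega
  · intro i _ hi
    rw [Pi.single_eq_of_ne hi, zero_mul]
  · intro h
    exact absurd (mem_univ v) h

theorem holds_comb {a a₁ a₂ : V → ℤ} {b b₁ b₂ : ℤ} {α β : ℕ}
    (ha : ∀ i, a i = α * a₁ i + β * a₂ i) (hb : b = α * b₁ + β * b₂)
    (h₁ : Holds vs ng q A₀ ρ₀ k a₁ b₁) (h₂ : Holds vs ng q A₀ ρ₀ k a₂ b₂) :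
    Holds vs ng q A₀ ρ₀ k a b := by
  intro A ρ hF
  have e1 := h₁ A ρ hF
  have e2 := h₂ A ρ hF
  have e3 : ∑ i, a i * pt A ρ i =
      α * ∑ i, a₁ i * pt A ρ i + β * ∑ i, a₂ i * pt A ρ i := by
    rw [mul_sum, mul_sum, ← sum_add_distrib]
    refine sum_congr rfl (fun i _ => ?_)
    rw [ha i]
    ring
  rw [e3, hb]
  have f1 := mul_le_mul_of_nonneg_left e1 (Int.natCast_nonneg α)
  have f2 := mul_le_mul_of_nonneg_left e2 (Int.natCast_nonneg β)
  linarith

/-- At a narrow inequality the memory can be reset. -/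
theorem holds_reset {R M w l : ℕ} (hE : Exp vs R) (hq : 2 * M ≤ q) (hR : 2 * (M + 1) + q ≤ R)
    (hcl0 : Closed vs q A₀) (hsm0 : Sm vs l A₀) (hM : l + w ≤ M)
    {a : V → ℤ} {b : ℤ} (hsupp : (univ.filter (fun i => a i ≠ 0)).card ≤ w)
    (hH : Holds vs ng q A₀ ρ₀ (l + w) a b) (k : ℕ) : Holds vs ng q A₀ ρ₀ k a b := by
  classical
  rintro A ρ ⟨hcl, h0A, -, hval, hρ₀⟩
  set W := univ.filter (fun i => a i ≠ 0) with hW
  obtain ⟨X, hX, hXs, hXk⟩ := exists_closed_union (q := q) hE W (k := l) (by omega) hcl0 hsm0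
  have hcl' : Closed vs q (A ∩ X) := hcl.inter hX
  have hsm : Sm vs (l + W.card) (A ∩ X) :=
    Sm.of_subset hE (by omega) hcl' inter_subset_right hXk (by omega)
  have h1 := hH (A ∩ X) ρ ⟨hcl', subset_inter h0A (subset_union_left.trans hXs),
    hsm.mono (by omega), fun c hc => hval c (hc.trans inter_subset_left), hρ₀⟩
  refine h1.trans (le_of_eq (sum_congr rfl (fun i _ => ?_)))
  by_cases hi : a i = 0
  · rw [hi]
    ring
  · have hiX : i ∈ X := hXs (mem_union_right _ (mem_filter.mpr ⟨mem_univ _, hi⟩))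
    congr 1
    unfold pt
    by_cases hiA : i ∈ A
    · rw [if_pos (mem_inter.mpr ⟨hiA, hiX⟩), if_pos hiA]
    · rw [if_neg (fun h => hiA (mem_inter.mp h).1), if_neg hiA]

/-- Rounding to a narrow inequality is free. -/
theorem holds_narrow {R M w l : ℕ} (hE : Exp vs R) (hq : 2 * M ≤ q)
    (hR : 2 * (M + 1) + q ≤ R) (hcl0 : Closed vs q A₀) (hsm0 : Sm vs l A₀) (hM : k + w ≤ M)
    (hlk : l ≤ k)
    {a a' : V → ℤ} {b b' : ℤ} {c : ℕ} (hc : 1 ≤ c) (ha : ∀ i, a i = c * a' i)
    (hb : b' = ⌈(b : ℚ) / c⌉)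
    (hsupp : (univ.filter (fun i => a' i ≠ 0)).card ≤ w)
    (hH : Holds vs ng q A₀ ρ₀ (l + w) a b) :
    Holds vs ng q A₀ ρ₀ k a' b' := by
  classical
  rintro A ρ ⟨hcl, h0A, hsm, hval, hρ₀⟩
  by_contra hcon
  rw [not_le] at hcon
  set W := univ.filter (fun i => a' i ≠ 0) with hW
  obtain ⟨X, hX, hXs, hXk⟩ := exists_closed_union (q := q) hE W (k := l) (by omega) hcl0 hsm0
  obtain ⟨B, hB, hBs, hBk⟩ := exists_closed_union (q := q) hE W (k := k) (by omega) hcl hsm
  have hAB : A ⊆ B := subset_union_left.trans hBs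
  have hBq : (inside vs B).card ≤ q := by
    have := hBk.inside_le
    omega
  obtain ⟨σ, hσA, hv1, hv2⟩ := exists_ext hcl hBq hval
  have hsum : ∑ i, a' i * pt B σ i + ∑ i, a' i * pt B (MP86d903.flip A σ) i =
      2 * ∑ i, a' i * pt A ρ i := by
    rw [← sum_add_distrib, mul_sum]
    refine sum_congr rfl (fun i _ => ?_)
    have := pt_add_pt_flip hAB hσA i
    rw [← mul_add, this]
    ring
  obtain ⟨τ, hτA, hτv, hτlt⟩ : ∃ τ : V → Bool, (∀ i ∈ A, τ i = ρ i) ∧ Valid vs ng τ B ∧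
      ∑ i, a' i * pt B τ i < 2 * b' := by
    by_cases hlt : ∑ i, a' i * pt B σ i < 2 * b'
    · exact ⟨σ, hσA, hv1, hlt⟩
    · refine ⟨MP86d903.flip A σ, ?_, hv2, by omega⟩
      intro i hi
      unfold MP86d903.flip
      rw [if_pos hi]
      exact hσA i hi
  have hcl' : Closed vs q (B ∩ X) := hB.inter hX
  have hsm' : Sm vs (l + W.card) (B ∩ X) :=
    Sm.of_subset hE (by omega) hcl' inter_subset_right hXk (by omega)
  have h1 := hH (B ∩ X) τ ⟨hcl', subset_inter (h0A.trans hAB) (subset_union_left.trans hXs),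
    hsm'.mono (by omega), fun c hc => hτv c (hc.trans inter_subset_left), fun i hi => by
      rw [hτA i (h0A hi)]
      exact hρ₀ i hi⟩
  have hWB : ∀ i, a' i ≠ 0 → i ∈ B ∩ X := by
    intro i hi
    have hiW : i ∈ W := mem_filter.mpr ⟨mem_univ _, hi⟩
    exact mem_inter.mpr ⟨hBs (mem_union_right _ hiW), hXs (mem_union_right _ hiW)⟩
  have h2 : ∀ i, a i * pt (B ∩ X) τ i = 2 * ((c : ℤ) * (a' i * if τ i then 1 else 0)) := by
    intro i
    rw [ha i]
    by_cases hi : a' i = 0
    · simp [hi]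
    · simp only [pt, if_pos (hWB i hi)]
      cases τ i <;> simp
      ring
  have h2' : ∀ i, a' i * pt B τ i = 2 * (a' i * if τ i then 1 else 0) := by
    intro i
    by_cases hi : a' i = 0
    · simp [hi]
    · simp only [pt, if_pos (mem_inter.mp (hWB i hi)).1]
      cases τ i <;> simp
      ring
  rw [sum_congr rfl (fun i _ => h2 i), ← mul_sum, ← mul_sum] at h1
  rw [sum_congr rfl (fun i _ => h2' i), ← mul_sum] at hτlt
  set s := ∑ i, (a' i * if τ i then 1 else 0 : ℤ) with hs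
  have h4 : b ≤ c * s := by omega
  have h5 : b' ≤ s := by
    rw [hb, Int.ceil_le, div_le_iff₀ (by exact_mod_cast hc)]
    have : (b : ℚ) ≤ ((c * s : ℤ) : ℚ) := by exact_mod_cast h4
    rw [Int.cast_mul] at this
    push_cast at this
    linarith
  omega

/-- A rounding step costs at most one unit of rank. -/
theorem holds_div {R M : ℕ} (hE : Exp vs R) (hq : 2 * M ≤ q)
    (hR : 2 * (M + 1) + q ≤ R) (hM : k + 1 ≤ M)
    {a a' : V → ℤ} {b b' : ℤ} {c : ℕ} (hc : 1 ≤ c) (ha : ∀ i, a i = c * a' i)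
    (hb : b' = ⌈(b : ℚ) / c⌉)
    (hH : Holds vs ng q A₀ ρ₀ (k + 1) a b) :
    Holds vs ng q A₀ ρ₀ k a' b' := by
  classical
  intro A ρ hF
  by_contra hcon
  rw [not_le] at hcon
  obtain ⟨hcl, h0A, hsm, hval, hρ₀⟩ := hF
  have hsuma : ∀ (C : Finset V) (τ : V → Bool),
      ∑ i, a i * pt C τ i = c * ∑ i, a' i * pt C τ i := by
    intro C τ
    rw [mul_sum]
    refine sum_congr rfl (fun i _ => ?_)
    rw [ha i]
    ring
  have h1 := hH A ρ ⟨hcl, h0A, hsm.mono (by omega), hval, hρ₀⟩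
  rw [hsuma] at h1
  set s := ∑ i, a' i * pt A ρ i with hs
  have hc0 : (0 : ℤ) < c := by exact_mod_cast hc
  have hblt : (c : ℤ) * (b' - 1) < b := by
    have : (b' : ℚ) - 1 < (b : ℚ) / c := by
      rw [hb]
      have := Int.ceil_lt_add_one ((b : ℚ) / c)
      linarith
    rw [lt_div_iff₀ (by exact_mod_cast hc)] at this
    have h2 : (((b' - 1) * c : ℤ) : ℚ) < (b : ℚ) := by
      push_cast
      exact this
    have h4 : (b' - 1) * (c : ℤ) < b := by exact_mod_cast h2
    rw [mul_comm]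
    exact h4
  -- the value is exactly 2b' - 1
  have hs1 : s = 2 * b' - 1 := by
    have h2 : (c : ℤ) * (2 * b' - 2) < c * s := by
      have : (c : ℤ) * (2 * b' - 2) = 2 * (c * (b' - 1)) := by ring
      rw [this]
      omega
    have h4 := lt_of_mul_lt_mul_left h2 hc0.le
    omega
  have hodd : Odd (∑ i ∈ Aᶜ, a' i) := by
    have h2 := sum_pt_eq A ρ a'
    rw [← hs, hs1] at h2
    exact ⟨b' - 1 - ∑ i ∈ A, a' i * (if ρ i then 1 else 0), by omega⟩
  -- a class with an odd sum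
  obtain ⟨j, hjA, hj⟩ : ∃ j, j ∉ A ∧ Odd (∑ i ∈ Cl vs q (insert j A) \ A, a' i) := by
    by_contra hcon2
    push Not at hcon2
    have h2 : ∑ i ∈ Aᶜ, a' i = ∑ C ∈ Aᶜ.image (fun i => Cl vs q (insert i A)),
        ∑ i ∈ Aᶜ.filter (fun i => Cl vs q (insert i A) = C), a' i :=
      (sum_fiberwise_of_maps_to (fun i hi => mem_image_of_mem _ hi) _).symm
    have h3 : Even (∑ i ∈ Aᶜ, a' i) := by
      rw [h2]
      refine Finset.even_sum _ (fun C hC => ?_)
      obtain ⟨j, hj, rfl⟩ := mem_image.mp hC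
      rw [mem_compl] at hj
      have h4 : Aᶜ.filter (fun i => Cl vs q (insert i A) = Cl vs q (insert j A)) =
          Cl vs q (insert j A) \ A := by
        ext i
        simp only [mem_filter, mem_compl, mem_sdiff]
        constructor
        · rintro ⟨h5, h6⟩
          refine ⟨?_, h5⟩
          rw [← h6]
          exact subset_Cl q _ (mem_insert_self _ _)
        · rintro ⟨h5, h6⟩
          exact ⟨h6, cl_class hE (by omega) (by omega) hcl hsm h5 h6⟩
      rw [h4]
      have := hcon2 j hj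
      rwa [Int.not_odd_iff_even] at this
    exact (Int.not_even_iff_odd.mpr hodd) h3
  set B := Cl vs q (insert j A) with hBdef
  obtain ⟨hBs0, -⟩ := cl_rank (q := q) hE (by omega) (by omega) hsm j
  have hBs : Sm vs (k + 1) B := hBs0
  have hBcl : Closed vs q B := closed_Cl q _
  have hAB : A ⊆ B := (subset_insert j A).trans (subset_Cl q _)
  have hBq : (inside vs B).card ≤ q := by
    have := hBs.inside_le
    omega
  obtain ⟨σ, hσA, hv1, hv2⟩ := exists_ext hcl hBq hval
  have hsum : ∑ i, a' i * pt B σ i + ∑ i, a' i * pt B (MP86d903.flip A σ) i = 2 * s := by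
    rw [← sum_add_distrib, hs, mul_sum]
    refine sum_congr rfl (fun i _ => ?_)
    have := pt_add_pt_flip hAB hσA i
    rw [← mul_add, this]
    ring
  have hne : ∑ i, a' i * pt B σ i ≠ s := by
    intro heq
    have e1 := sum_pt_eq B σ a'
    have e2 := sum_pt_eq A ρ a'
    rw [← hs] at e2
    rw [heq] at e1
    have e3 : ∑ i ∈ Aᶜ, a' i = ∑ i ∈ B \ A, a' i + ∑ i ∈ Bᶜ, a' i := by
      rw [← sum_union]
      · refine sum_congr ?_ (fun _ _ => rfl)
        ext i
        simp only [mem_compl, mem_union, mem_sdiff]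
        constructor
        · intro h
          by_cases hiB : i ∈ B
          · exact Or.inl ⟨hiB, h⟩
          · exact Or.inr hiB
        · rintro (⟨-, h⟩ | h)
          · exact h
          · exact fun h2 => h (hAB h2)
      · rw [Finset.disjoint_left]
        intro i hi hi'
        exact (mem_compl.mp hi') (mem_sdiff.mp hi).1
    obtain ⟨r, hr⟩ := hj
    omega
  obtain ⟨τ, hτA, hτv, hτlt⟩ : ∃ τ : V → Bool, (∀ i ∈ A, τ i = ρ i) ∧ Valid vs ng τ B ∧
      ∑ i, a' i * pt B τ i < s := by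
    by_cases hlt : ∑ i, a' i * pt B σ i < s
    · exact ⟨σ, hσA, hv1, hlt⟩
    · refine ⟨MP86d903.flip A σ, ?_, hv2, by omega⟩
      intro i hi
      unfold MP86d903.flip
      rw [if_pos hi]
      exact hσA i hi
  have h5 := hH B τ ⟨hBcl, h0A.trans hAB, hBs, hτv, fun i hi => by
      rw [hτA i (h0A hi)]
      exact hρ₀ i hi⟩
  rw [hsuma] at h5
  have h6 : (c : ℤ) * ∑ i, a' i * pt B τ i ≤ c * (2 * b' - 2) :=
    mul_le_mul_of_nonneg_left (by omega) hc0.le
  have h7 : (c : ℤ) * (2 * b' - 2) = 2 * (c * (b' - 1)) := by ring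
  omega

end Helper80.SR
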