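import Pool.Agent.Helper5.SR.St1
import Pool.Agent.Helper71.TU.X5aux

/-! # Project SR: module KK2 (the shifted inverse `P = G⁻¹(G - τ)`) -/

set_option autoImplicit false

namespace Pool.Agent.Helper80.SR

open Helper5.SR Pool.Agent.Helper51.LT
open Complex MeasureTheory Set Metric Filter Topology
open scoped Real
open Pool.Agent.Helper60.Rel (LH)

theorem kk2_open : IsOpen LH := isOpen_lt continuous_re continuous_const

/-- a function with derivative of positive real part is monotone in the real direction -/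
theorem kk2_mono (G : ℂ → ℂ) (hd : DifferentiableOn ℂ G LH) (hre : ∀ ζ ∈ LH, 0 < (deriv G ζ).re)
    (η η' : ℂ) (h : η ∈ LH) (h' : η' ∈ LH) (s : ℝ) (hs : 0 ≤ s) (he : G η' = G η - s) :
    η'.re ≤ η.re := by
  by_contra hlt
  push Not at hlt
  set w : ℂ := η' - η with hw
  have hwre : 0 < w.re := by
    rw [hw, sub_re]
    linarith
  have hmem : ∀ u ∈ Icc (0 : ℝ) 1, η + (u : ℂ) * w ∈ LH := by
    intro u hu
    change (η + (u : ℂ) * w).re < 0
    have e1 : (η + (u : ℂ) * w).re = η.re + u * (η'.re - η.re) := by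
      rw [add_re, re_ofReal_mul, hw, sub_re]
    rw [e1]
    have h1 : η.re < 0 := h
    have h2 : η'.re < 0 := h'
    have h3 : u * (η'.re - η.re) ≤ 1 * (η'.re - η.re) :=
      mul_le_mul_of_nonneg_right hu.2 (by linarith)
    linarith
  set e : ℂ → ℂ := fun u => G (η + u * w) * (starRingEnd ℂ) w with hedef
  have hder : ∀ u ∈ Icc (0 : ℝ) 1,
      HasDerivAt (fun x : ℝ => (e x).re) ((deriv G (η + (u : ℂ) * w)).re * normSq w) u := by
    intro u hu
    have h1 : HasDerivAt G (deriv G (η + (u : ℂ) * w)) (η + (u : ℂ) * w) :=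
      ((hd _ (hmem u hu)).differentiableAt (kk2_open.mem_nhds (hmem u hu))).hasDerivAt
    have h2 : HasDerivAt (fun x : ℂ => η + x * w) (1 * w) (u : ℂ) :=
      ((hasDerivAt_id (u : ℂ)).mul_const w).const_add η
    have h3 : HasDerivAt e (deriv G (η + (u : ℂ) * w) * (1 * w) * (starRingEnd ℂ) w) (u : ℂ) :=
      (HasDerivAt.comp (u : ℂ) h1 h2).mul_const _
    have h4 := h3.real_of_complex
    have h5 : (deriv G (η + (u : ℂ) * w) * (1 * w) * (starRingEnd ℂ) w).re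
        = (deriv G (η + (u : ℂ) * w)).re * normSq w := by
      rw [one_mul, mul_assoc, mul_conj, re_mul_ofReal]
    rw [h5] at h4
    exact h4
  have hw0 : 0 < normSq w := by
    rw [normSq_pos]
    intro h0
    rw [h0] at hwre
    simp at hwre
  have hmono : StrictMonoOn (fun x : ℝ => (e x).re) (Icc 0 1) := by
    apply strictMonoOn_of_deriv_pos (convex_Icc 0 1)
    · intro u hu
      exact (hder u hu).continuousAt.continuousWithinAt
    · intro u hu
      have hu' : u ∈ Icc (0 : ℝ) 1 := interior_subset hu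
      rw [(hder u hu').deriv]
      exact mul_pos (hre _ (hmem u hu')) hw0
  have h01 := hmono (left_mem_Icc.2 zero_le_one) (right_mem_Icc.2 zero_le_one) zero_lt_one
  have e0 : (e ((0 : ℝ) : ℂ)) = G η * (starRingEnd ℂ) w := by
    simp only [hedef, ofReal_zero, zero_mul, add_zero]
  have e1 : (e ((1 : ℝ) : ℂ)) = G η' * (starRingEnd ℂ) w := by
    simp only [hedef, ofReal_one, one_mul, hw, add_sub_cancel]
  simp only at h01
  rw [e0, e1, he, sub_mul, sub_re, re_ofReal_mul, conj_re] at h01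
  nlinarith

/-- solvability of `G η = G ζ - τ` -/
theorem kk2_exists (G : ℂ → ℂ) (hd : DifferentiableOn ℂ G LH) (hi : InjOn G LH)
    (hre : ∀ ζ ∈ LH, 0 < (deriv G ζ).re)
    (hC : ∀ d : ℝ, 0 < d → ∃ C : ℝ, ∀ ζ : ℂ, ζ.re ≤ -d → ‖G ζ - ζ‖ ≤ C)
    (ζ : ℂ) (hζ : ζ ∈ LH) (τ : ℝ) (hτ : 0 ≤ τ) : G ζ - τ ∈ G '' LH := by
  have hopen := Pool.TU.X5.isOpen_image_of_injOn kk2_open hd hi
  set S : Set ℝ := {t : ℝ | G ζ - t ∈ G '' LH} with hS
  have hcont : Continuous (fun t : ℝ => G ζ - (t : ℂ)) :=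
    continuous_const.sub continuous_ofReal
  have hSo : IsOpen S := hopen.preimage hcont
  have h0 : (0 : ℝ) ∈ S := by
    change G ζ - ((0 : ℝ) : ℂ) ∈ G '' LH
    rw [ofReal_zero, sub_zero]
    exact mem_image_of_mem G hζ
  have hζ' : ζ.re < 0 := hζ
  obtain ⟨C, hC'⟩ := hC (-ζ.re) (by linarith)
  rw [neg_neg] at hC'
  have hclosed : IsClosed (S ∩ Icc 0 τ) := by
    apply IsSeqClosed.isClosed
    intro t t₀ ht htt
    have hIcc : t₀ ∈ Icc 0 τ := isClosed_Icc.mem_of_tendsto htt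
      (Eventually.of_forall fun n => (ht n).2)
    refine ⟨?_, hIcc⟩
    have hch : ∀ n, ∃ η ∈ LH, G η = G ζ - (t n : ℂ) := by
      intro n
      obtain ⟨η, h1, h2⟩ := (ht n).1
      exact ⟨η, h1, h2⟩
    choose η hη hGη using hch
    have hreη : ∀ n, (η n).re ≤ ζ.re := fun n =>
      kk2_mono G hd hre ζ (η n) hζ (hη n) (t n) (ht n).2.1 (hGη n)
    have hbd : ∀ n, ‖η n‖ ≤ ‖G ζ‖ + τ + C := by
      intro n
      have h1 := hC' (η n) (hreη n)
      have h2 : η n = (G ζ - (t n : ℂ)) - (G (η n) - η n) := by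
        rw [hGη n]
        ring
      have h3 : ‖η n‖ ≤ ‖G ζ - (t n : ℂ)‖ + ‖G (η n) - η n‖ := by
        conv_lhs => rw [h2]
        exact norm_sub_le _ _
      have h4 : ‖G ζ - (t n : ℂ)‖ ≤ ‖G ζ‖ + t n := by
        refine (norm_sub_le _ _).trans (le_of_eq ?_)
        rw [norm_real, Real.norm_of_nonneg (ht n).2.1]
      have h5 := (ht n).2.2
      linarith
    have hK : IsCompact (closedBall (0 : ℂ) (‖G ζ‖ + τ + C) ∩ {z : ℂ | z.re ≤ ζ.re}) :=
      (isCompact_closedBall _ _).inter_right (isClosed_le continuous_re continuous_const)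
    obtain ⟨η₀, hη₀, φ, hφ, hlim⟩ := hK.tendsto_subseq (x := η) fun n =>
      ⟨mem_closedBall_zero_iff.2 (hbd n), hreη n⟩
    have hη₀L : η₀ ∈ LH := lt_of_le_of_lt hη₀.2 hζ'
    have hGc : ContinuousAt G η₀ :=
      ((hd _ hη₀L).differentiableAt (kk2_open.mem_nhds hη₀L)).continuousAt
    have l1 : Tendsto (fun n => G (η (φ n))) atTop (𝓝 (G η₀)) := hGc.tendsto.comp hlim
    have l2 : Tendsto (fun n => G ζ - ((t (φ n) : ℝ) : ℂ)) atTop (𝓝 (G ζ - (t₀ : ℂ))) :=
      (hcont.tendsto t₀).comp (htt.comp hφ.tendsto_atTop)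
    have l3 : (fun n => G (η (φ n))) = fun n => G ζ - ((t (φ n) : ℝ) : ℂ) := by
      funext n
      exact hGη (φ n)
    rw [l3] at l1
    exact ⟨η₀, hη₀L, tendsto_nhds_unique l1 l2⟩
  have hsub : Icc 0 τ ⊆ S := by
    apply hclosed.Icc_subset_of_forall_exists_gt h0
    intro x hx y hy
    have hxy : x < y := hy
    obtain ⟨ε, hε, hball⟩ := Metric.isOpen_iff.1 hSo x hx.1
    refine ⟨min y (x + ε / 2), ?_, ?_, min_le_left _ _⟩
    · apply hball
      rw [mem_ball, Real.dist_eq, abs_of_pos]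
      · have := min_le_right y (x + ε / 2)
        linarith
      · rw [sub_pos, lt_min_iff]
        exact ⟨hxy, by linarith⟩
    · rw [lt_min_iff]
      exact ⟨hxy, by linarith⟩
  exact hsub (right_mem_Icc.2 hτ)

theorem hKK2 (hKK1 : StKK1) : StKK2 := by
  intro ι Λ θ p hp hsum
  obtain ⟨hd, hi, hper, hre, hbd⟩ := hKK1 ι Λ θ p hp hsum
  obtain ⟨C₁, c₁, hC₁, -, hb₁⟩ := hbd 1 one_pos
  refine ⟨2 * C₁, by positivity, fun τ hτ => ?_⟩
  set G : ℂ → ℂ := kk Λ θ p with hG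
  have hC : ∀ d : ℝ, 0 < d → ∃ C : ℝ, ∀ ζ : ℂ, ζ.re ≤ -d → ‖G ζ - ζ‖ ≤ C := by
    intro d hd'
    obtain ⟨C, c, hC0, -, hb⟩ := hbd d hd'
    refine ⟨C, fun ζ hζ => ?_⟩
    refine (hb ζ hζ).1.trans ?_
    have h1 : Real.exp ζ.re ≤ 1 := Real.exp_le_one_iff.2 (by linarith)
    nlinarith
  have hex : ∀ ζ ∈ LH, ∃ η ∈ LH, G η = G ζ - τ := fun ζ hζ =>
    kk2_exists G hd hi hre hC ζ hζ τ hτ
  set F : ℂ → ℂ := Function.invFunOn G LH with hF
  set P : ℂ → ℂ := fun ζ => F (G ζ - τ) with hP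
  have hPm : ∀ ζ ∈ LH, P ζ ∈ LH := fun ζ hζ => Function.invFunOn_mem (hex ζ hζ)
  have hPe : ∀ ζ ∈ LH, G (P ζ) = G ζ - τ := fun ζ hζ => Function.invFunOn_eq (hex ζ hζ)
  have hPre : ∀ ζ ∈ LH, (P ζ).re ≤ ζ.re := fun ζ hζ =>
    kk2_mono G hd hre ζ (P ζ) hζ (hPm ζ hζ) τ hτ (hPe ζ hζ)
  have hFG : ∀ η ∈ LH, F (G η) = η := fun η hη =>
    hi.leftInvOn_invFunOn hη
  -- the derivative of the inverse
  have hFd : ∀ η ∈ LH, HasDerivAt F (deriv G η)⁻¹ (G η) := by
    intro η hη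
    have hn : deriv G η ≠ 0 := by
      intro h0
      have := hre η hη
      rw [h0] at this
      simp at this
    have hst : HasStrictDerivAt G (deriv G η) η :=
      (hd.analyticAt (kk2_open.mem_nhds hη)).hasStrictDerivAt
    have hmap := hst.map_nhds_eq hn
    have hcont : ContinuousAt F (G η) := by
      change Tendsto F (𝓝 (G η)) (𝓝 (F (G η)))
      rw [← hmap, tendsto_map'_iff, hFG η hη]
      refine tendsto_id.congr' ?_
      filter_upwards [kk2_open.mem_nhds hη] with x hx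
      exact (hFG x hx).symm
    refine HasDerivAt.of_local_left_inverse (f := G) hcont ?_ hn ?_
    · rw [hFG η hη]
      exact hst.hasDerivAt
    · rw [← hmap, eventually_map]
      filter_upwards [kk2_open.mem_nhds hη] with x hx
      rw [hFG x hx]
  have hPd : ∀ ζ ∈ LH, HasDerivAt P ((deriv G (P ζ))⁻¹ * deriv G ζ) ζ := by
    intro ζ hζ
    have h1 := hFd (P ζ) (hPm ζ hζ)
    rw [hPe ζ hζ] at h1
    have h2 : HasDerivAt (fun ζ => G ζ - (τ : ℂ)) (deriv G ζ) ζ :=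
      (((hd _ hζ).differentiableAt (kk2_open.mem_nhds hζ)).hasDerivAt).sub_const _
    exact HasDerivAt.comp ζ h1 h2
  have hadd : ∀ ζ ∈ LH, ζ + 2 * π * I ∈ LH := by
    intro ζ hζ
    change (ζ + 2 * π * I).re < 0
    have h1 : (ζ + 2 * π * I).re = ζ.re := by simp
    rw [h1]
    exact hζ
  refine ⟨P, ?_, ?_, hPre, ?_, hPe, ?_, ?_⟩
  · intro ζ hζ
    exact (hPd ζ hζ).differentiableAt.differentiableWithinAt
  · intro ζ hζ ζ' hζ' h
    apply hi hζ hζ'
    have h1 := hPe ζ hζ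
    have h2 := hPe ζ' hζ'
    rw [h, h2] at h1
    exact (sub_left_injective h1).symm
  · intro ζ hζ
    apply hi (hPm _ (hadd ζ hζ)) (hadd _ (hPm ζ hζ))
    rw [hPe _ (hadd ζ hζ), hper _ (hPm ζ hζ), hPe ζ hζ, hper ζ hζ]
    ring
  · intro ζ hζ
    rw [(hPd ζ hζ).deriv]
    have hn : deriv G (P ζ) ≠ 0 := by
      intro h0
      have := hre _ (hPm ζ hζ)
      rw [h0] at this
      simp at this
    rw [← mul_assoc, mul_inv_cancel₀ hn, one_mul]
  · intro ζ hζ
    have hζL : ζ ∈ LH := by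
      change ζ.re < 0
      linarith
    have h1 := (hb₁ ζ hζ).1
    have h2 := (hb₁ (P ζ) ((hPre ζ hζL).trans hζ)).1
    have h3 : P ζ - (ζ - τ) = (G ζ - ζ) - (G (P ζ) - P ζ) := by
      rw [hPe ζ hζL]
      ring
    have h4 : Real.exp ζ.re ≤ 1 := Real.exp_le_one_iff.2 (by linarith)
    have h5 : Real.exp (P ζ).re ≤ 1 :=
      Real.exp_le_one_iff.2 (by have := hPre ζ hζL; linarith)
    have h6 : ‖G ζ - ζ‖ ≤ C₁ := h1.trans (by nlinarith)
    have h7 : ‖G (P ζ) - P ζ‖ ≤ C₁ := h2.trans (by nlinarith)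
    rw [h3]
    refine (norm_sub_le _ _).trans ?_
    linarith

end Pool.Agent.Helper80.SR
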