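import Pool.Agent.Helper80.CP.Random

/-!
Closed sets with the threshold `|N(S) - A| > |S|` in hypergraphs with expansion `19/10`, and
their rank `|A| - e(A)`.
-/

open Finset MP86d903

namespace Helper80.SR

variable {ι V : Type} [DecidableEq ι] [Fintype V] [DecidableEq V] (vs : ι → Finset V)

/-- Expansion: every set of at most `R` clauses has at least `19/10` as many variables. -/
def Exp (R : ℕ) : Prop :=
  ∀ S : Finset ι, S.card ≤ R → 19 * S.card ≤ 10 * (S.biUnion vs).card

/-- Closed sets of variables. -/
def Closed (q : ℕ) (A : Finset V) : Prop :=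
  ∀ S : Finset ι, S.Nonempty → S.card ≤ q → (∀ c ∈ S, ¬ vs c ⊆ A) →
    S.card < (S.biUnion vs \ A).card

/-- Small sets: the rank is at most `k` and the expansion bound holds. -/
def Sm [Fintype ι] (k : ℕ) (A : Finset V) : Prop :=
  A.card ≤ k + (inside vs A).card ∧ 19 * (inside vs A).card ≤ 10 * A.card

variable {vs}

theorem Closed.inter {q : ℕ} {A B : Finset V} (hA : Closed vs q A) (hB : Closed vs q B) :
    Closed vs q (A ∩ B) := by
  classical
  intro S hS hq hc
  set S1 := S.filter (fun c => ¬ vs c ⊆ A) with hS1
  set S2 := S.filter (fun c => vs c ⊆ A) with hS2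
  have hcard : S2.card + S1.card = S.card := Finset.card_filter_add_card_filter_not _
  have h2A : S2.biUnion vs ⊆ A := by
    intro v hv
    rw [mem_biUnion] at hv
    obtain ⟨c, hc, hv⟩ := hv
    exact (mem_filter.mp hc).2 hv
  have hdisj : Disjoint (S1.biUnion vs \ A) (S2.biUnion vs \ B) := by
    rw [Finset.disjoint_left]
    intro v hv hv'
    exact (mem_sdiff.mp hv).2 (h2A (mem_sdiff.mp hv').1)
  have hsub : (S1.biUnion vs \ A) ∪ (S2.biUnion vs \ B) ⊆ S.biUnion vs \ (A ∩ B) := by
    intro v hv
    rcases mem_union.mp hv with hv | hv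
    · obtain ⟨h1, h2⟩ := mem_sdiff.mp hv
      refine mem_sdiff.mpr ⟨?_, fun h => h2 (mem_inter.mp h).1⟩
      exact biUnion_subset_biUnion_of_subset_left _ (filter_subset _ _) h1
    · obtain ⟨h1, h2⟩ := mem_sdiff.mp hv
      refine mem_sdiff.mpr ⟨?_, fun h => h2 (mem_inter.mp h).2⟩
      exact biUnion_subset_biUnion_of_subset_left _ (filter_subset _ _) h1
  have hle : (S1.biUnion vs \ A).card + (S2.biUnion vs \ B).card ≤
      (S.biUnion vs \ (A ∩ B)).card := by
    rw [← card_union_of_disjoint hdisj]
    exact card_le_card hsub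
  have hs1 : S1.Nonempty → S1.card < (S1.biUnion vs \ A).card := by
    intro h
    exact hA S1 h ((card_le_card (filter_subset _ _)).trans hq)
      (fun c hc => (mem_filter.mp hc).2)
  have hs2 : S2.Nonempty → S2.card < (S2.biUnion vs \ B).card := by
    intro h
    refine hB S2 h ((card_le_card (filter_subset _ _)).trans hq) (fun c hcc hsubB => ?_)
    obtain ⟨hcS, hcA⟩ := mem_filter.mp hcc
    exact hc c hcS (subset_inter hcA hsubB)
  rcases S1.eq_empty_or_nonempty with he1 | hn1
  · rcases S2.eq_empty_or_nonempty with he2 | hn2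
    · rw [he1, he2] at hcard
      simp only [card_empty] at hcard
      have := card_pos.mpr hS
      omega
    · have := hs2 hn2
      rw [he1] at hcard
      simp only [card_empty] at hcard
      omega
  · have h1 := hs1 hn1
    rcases S2.eq_empty_or_nonempty with he2 | hn2
    · rw [he2] at hcard
      simp only [card_empty] at hcard
      omega
    · have := hs2 hn2
      omega

theorem closed_univ (q : ℕ) : Closed vs q (univ : Finset V) := by
  intro S hS _ hc
  obtain ⟨c, hcS⟩ := hS
  exact absurd (subset_univ _) (hc c hcS)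

variable (vs)

open Classical in
/-- The closure of a set of variables. -/
noncomputable def Cl (q : ℕ) (T : Finset V) : Finset V :=
  ((univ : Finset (Finset V)).filter (fun A => Closed vs q A ∧ T ⊆ A)).inf id

variable {vs}

theorem closed_Cl (q : ℕ) (T : Finset V) : Closed vs q (Cl vs q T) := by
  classical
  refine Finset.inf_induction (p := fun A => Closed vs q A) (closed_univ q)
    (fun A hA B hB => hA.inter hB) ?_
  intro A hA
  exact (mem_filter.mp hA).2.1

theorem subset_Cl (q : ℕ) (T : Finset V) : T ⊆ Cl vs q T := by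
  classical
  refine Finset.le_inf ?_
  intro A hA
  exact (mem_filter.mp hA).2.2

theorem Cl_subset {q : ℕ} {T A : Finset V} (hA : Closed vs q A) (hT : T ⊆ A) :
    Cl vs q T ⊆ A := by
  classical
  exact Finset.inf_le (f := id) (mem_filter.mpr ⟨mem_univ _, hA, hT⟩)

variable [Fintype ι]

theorem inside_mono {A B : Finset V} (h : A ⊆ B) : inside vs A ⊆ inside vs B := by
  intro c hc
  exact mem_inside.mpr ((mem_inside.mp hc).trans h)

theorem Sm.mono {k l : ℕ} (h : k ≤ l) {A : Finset V} (hA : Sm vs k A) : Sm vs l A :=
  ⟨hA.1.trans (by omega), hA.2⟩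

theorem card_inside_le {R : ℕ} (hE : Exp vs R) (A : Finset V)
    (hA : 10 * A.card < 19 * R) : 19 * (inside vs A).card ≤ 10 * A.card := by
  classical
  have hsub : ∀ S : Finset ι, S ⊆ inside vs A → (S.biUnion vs).card ≤ A.card := by
    intro S hS
    refine card_le_card ?_
    intro v hv
    obtain ⟨c, hc, hvc⟩ := mem_biUnion.mp hv
    exact (mem_inside.mp (hS hc)) hvc
  have hlt : (inside vs A).card ≤ R := by
    by_contra hcon
    rw [not_le] at hcon
    obtain ⟨S, hS, hSc⟩ := exists_subset_card_eq (s := inside vs A) hcon.le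
    have h1 := hE S hSc.le
    have h2 := hsub S hS
    omega
  have h1 := hE _ hlt
  have h2 := hsub _ (subset_refl _)
  omega

/-- The rank is strictly monotone on closed sets. -/
theorem rank_lt {q : ℕ} {A B : Finset V} (hA : Closed vs q A) (hAB : A ⊆ B) (hne : A ≠ B)
    (hB : (inside vs B).card ≤ q) :
    A.card + (inside vs B).card + 1 ≤ B.card + (inside vs A).card := by
  classical
  set S := inside vs B \ inside vs A with hS
  have h1 : S.card + (inside vs A).card = (inside vs B).card :=
    card_sdiff_add_card_eq_card (inside_mono hAB)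
  have h2 : (B \ A).card + A.card = B.card := card_sdiff_add_card_eq_card hAB
  rcases S.eq_empty_or_nonempty with he | hn
  · rw [he, card_empty] at h1
    have h3 : 0 < (B \ A).card := by
      rw [card_pos, sdiff_nonempty]
      intro h
      exact hne (Subset.antisymm hAB h)
    omega
  · have h3 := hA S hn ((card_le_card sdiff_subset).trans hB) (fun c hc h =>
      (mem_sdiff.mp hc).2 (mem_inside.mpr h))
    have h4 : S.biUnion vs \ A ⊆ B \ A := by
      refine sdiff_subset_sdiff ?_ (subset_refl _)
      intro v hv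
      obtain ⟨c, hc, hvc⟩ := mem_biUnion.mp hv
      exact (mem_inside.mp (mem_sdiff.mp hc).1) hvc
    have h5 := card_le_card h4
    omega

/-- Small sets are small. -/
theorem Sm.card_le {k : ℕ} {A : Finset V} (hA : Sm vs k A) : 9 * A.card ≤ 19 * k := by
  have h1 := hA.1
  have h2 := hA.2
  omega

theorem Sm.inside_le {k : ℕ} {A : Finset V} (hA : Sm vs k A) : (inside vs A).card ≤ 2 * k := by
  have h1 := hA.1
  have h2 := hA.2
  omega

/-- A small closed set can be enlarged by one variable. -/
theorem exists_closed {q R k : ℕ} (hE : Exp vs R) (hR : 2 * (k + 1) + q ≤ R) {A : Finset V}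
    (hA : Sm vs k A) (j : V) :
    ∃ B, Closed vs q B ∧ insert j A ⊆ B ∧ Sm vs (k + 1) B := by
  classical
  set 𝒰 := (univ : Finset (Finset V)).filter (fun X => insert j A ⊆ X ∧ Sm vs (k + 1) X) with h𝒰
  have hAc := hA.card_le
  have hne : 𝒰.Nonempty := by
    refine ⟨insert j A, ?_⟩
    rw [h𝒰, mem_filter]
    refine ⟨mem_univ _, subset_refl _, ?_, ?_⟩
    · have h1 := card_insert_le j A
      have h2 := card_le_card (inside_mono (vs := vs) (subset_insert j A))
      have h3 := hA.1
      omega
    · apply card_inside_le hE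
      have h1 := card_insert_le j A
      omega
  obtain ⟨X, hX, hmax⟩ := exists_max_image 𝒰 card hne
  obtain ⟨-, hjX, hXs⟩ := mem_filter.mp hX
  refine ⟨X, ?_, hjX, hXs⟩
  intro S hS hq hc
  by_contra hcon
  rw [not_lt] at hcon
  have hXc := hXs.card_le
  set X' := X ∪ S.biUnion vs with hX'
  have h1 : X'.card = (S.biUnion vs \ X).card + X.card := by
    rw [hX', union_comm, ← sdiff_union_self_eq_union, card_union_of_disjoint sdiff_disjoint]
  have h2 : (inside vs X).card + S.card ≤ (inside vs X').card := by
    have hdisj : Disjoint (inside vs X) S := by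
      rw [Finset.disjoint_left]
      intro c hc1 hc2
      exact hc c hc2 (mem_inside.mp hc1)
    rw [← card_union_of_disjoint hdisj]
    refine card_le_card ?_
    intro c hc'
    rcases mem_union.mp hc' with h | h
    · exact mem_inside.mpr ((mem_inside.mp h).trans subset_union_left)
    · exact mem_inside.mpr ((subset_biUnion_of_mem vs h).trans subset_union_right)
  have h3 : 0 < (S.biUnion vs \ X).card := by
    obtain ⟨c, hcS⟩ := hS
    rw [card_pos, sdiff_nonempty]
    intro h
    exact hc c hcS ((subset_biUnion_of_mem vs hcS).trans h)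
  have hmem : X' ∈ 𝒰 := by
    rw [h𝒰, mem_filter]
    refine ⟨mem_univ _, hjX.trans subset_union_left, ?_, ?_⟩
    · have := hXs.1
      omega
    · apply card_inside_le hE
      omega
  have := hmax _ hmem
  omega

theorem exists_closed_union {q R : ℕ} (hE : Exp vs R) (T : Finset V) : ∀ {k : ℕ}
    (_ : 2 * (k + T.card + 1) + q ≤ R) {A : Finset V} (_ : Closed vs q A) (_ : Sm vs k A),
    ∃ B, Closed vs q B ∧ A ∪ T ⊆ B ∧ Sm vs (k + T.card) B := by
  classical
  induction T using Finset.induction_on with
  | empty =>
    intro k _ A hAc hA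
    exact ⟨A, hAc, by simp, by simpa using hA⟩
  | insert j T hj ih =>
    intro k hR A hAc hA
    rw [card_insert_of_notMem hj] at hR ⊢
    obtain ⟨B, hB, hAB, hBs⟩ := exists_closed (q := q) hE (by omega) hA j
    obtain ⟨C, hC, hBC, hCs⟩ := ih (k := k + 1) (by omega) hB hBs
    refine ⟨C, hC, ?_, ?_⟩
    · intro v hv
      apply hBC
      rcases mem_union.mp hv with h | h
      · exact mem_union_left _ (hAB (mem_insert_of_mem h))
      · rcases mem_insert.mp h with h | h
        · rw [h]
          exact mem_union_left _ (hAB (mem_insert_self _ _))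
        · exact mem_union_right _ h
    · have : k + 1 + T.card = k + (T.card + 1) := by omega
      rw [← this]
      exact hCs

/-- A closed subset of a small closed set is small. -/
theorem Sm.of_subset {q R k : ℕ} (hE : Exp vs R) (hR : 2 * k < R) {A B : Finset V}
    (hA : Closed vs q A) (hAB : A ⊆ B) (hB : Sm vs k B) (hq : 2 * k ≤ q) : Sm vs k A := by
  by_cases hne : A = B
  · rw [hne]
    exact hB
  · have h1 := rank_lt hA hAB hne (hB.inside_le.trans hq)
    have h2 := hB.1
    have h3 := hB.card_le
    have h4 := card_le_card hAB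
    refine ⟨by omega, ?_⟩
    apply card_inside_le hE
    omega

/-- Closures over a small closed set. -/
theorem cl_rank {q R k : ℕ} (hE : Exp vs R) (hR : 2 * (k + 1) + q ≤ R) (hq : 2 * (k + 1) ≤ q)
    {A : Finset V} (hA : Sm vs k A) (j : V) :
    Sm vs (k + 1) (Cl vs q (insert j A)) ∧
      (Cl vs q (insert j A)).card + (inside vs A).card ≤
        A.card + 1 + (inside vs (Cl vs q (insert j A))).card := by
  have hle : (inside vs A).card ≤ A.card := by
    have := hA.2
    omega
  set k' := A.card - (inside vs A).card with hk'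
  have hk'k : k' ≤ k := by
    have := hA.1
    omega
  have hA' : Sm vs k' A := ⟨by omega, hA.2⟩
  obtain ⟨B, hB, hAB, hBs⟩ := exists_closed (q := q) hE (by omega) hA' j
  have h1 : Sm vs (k' + 1) (Cl vs q (insert j A)) :=
    Sm.of_subset hE (by omega) (closed_Cl q _) (Cl_subset hB hAB) hBs (by omega)
  refine ⟨h1.mono (by omega), ?_⟩
  have h2 := h1.1
  omega

/-- The closures of single variables over a closed set form a partition. -/
theorem cl_class {q R k : ℕ} (hE : Exp vs R) (hR : 2 * (k + 1) + q ≤ R) (hq : 2 * (k + 1) ≤ q)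
    {A : Finset V} (hAc : Closed vs q A) (hA : Sm vs k A) {i j : V}
    (hi : i ∈ Cl vs q (insert j A)) (hiA : i ∉ A) :
    Cl vs q (insert i A) = Cl vs q (insert j A) := by
  by_contra hne
  have hsub : Cl vs q (insert i A) ⊆ Cl vs q (insert j A) := by
    refine Cl_subset (closed_Cl q _) ?_
    intro v hv
    rcases mem_insert.mp hv with h | h
    · rw [h]
      exact hi
    · exact subset_Cl q _ (mem_insert_of_mem h)
  obtain ⟨hj1, hj2⟩ := cl_rank hE hR hq hA j
  obtain ⟨hi1, hi2⟩ := cl_rank hE hR hq hA i
  have h1 := rank_lt (closed_Cl q _) hsub hne (hj1.inside_le.trans hq)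
  have hiCl : i ∈ Cl vs q (insert i A) := subset_Cl q _ (mem_insert_self _ _)
  have h2 := rank_lt hAc ((subset_insert i A).trans (subset_Cl q _))
    (fun h => hiA (by rw [h]; exact hiCl)) (hi1.inside_le.trans hq)
  omega

end Helper80.SR
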