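import Pool.Agent.Helper80.SR.Sat
import Pool.Agent.Helper80.CP.Kill

/-!
A greedy choice of a small restriction with many hits.
-/

open Finset MP86d903

namespace Helper80.SR

variable {ι V : Type} [DecidableEq ι] [Fintype V] [DecidableEq V] [Fintype ι]
  {vs ng : ι → Finset V} {q : ℕ}

theorem greedy {κ : Type} {R M : ℕ} (h3 : ∀ c, (vs c).card = 3) (hE : Exp vs R)
    (hq : 2 * M ≤ q) (hR : 2 * (M + 1) + q ≤ R)
    (𝓔 : Finset κ) (Z : κ → Finset V) (g : κ → V → Bool) {w : ℕ}
    (hZ : ∀ e ∈ 𝓔, w ≤ (Z e).card) (hw : w ≤ Fintype.card V) (hV : 0 < Fintype.card V) :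
    ∀ t : ℕ, t ≤ M → 74 * t ≤ w → ∃ (A : Finset V) (ρ : V → Bool), Closed vs q A ∧
      Sm vs t A ∧ Valid vs ng ρ A ∧
      ∑ e ∈ 𝓔, ((1 : ℝ) / 2) ^ (hits (Z e) (g e) A ρ) ≤
        𝓔.card * (1 - w / (8 * Fintype.card V)) ^ t := by
  classical
  intro t
  induction t with
  | zero =>
    intro _ _
    refine ⟨∅, fun _ => true, ?_, ?_, ?_, ?_⟩
    · intro S hS hSq _
      have h1 := hE S (by omega)
      have h2 := hS.card_pos
      rw [sdiff_empty]
      omega
    · have h1 : inside vs (∅ : Finset V) = ∅ := by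
        rw [eq_empty_iff_forall_notMem]
        intro c hc
        rw [mem_inside, subset_empty] at hc
        have := h3 c
        rw [hc] at this
        simp at this
      unfold Sm
      rw [h1]
      simp
    · intro c hc
      rw [subset_empty] at hc
      have := h3 c
      rw [hc] at this
      simp at this
    · simp [hits]
  | succ t ih =>
    intro hM hw74
    obtain ⟨A, ρ, hcl, hsm, hval, hΦ⟩ := ih (by omega) (by omega)
    set N := Fintype.card V with hN
    have hAcard : A.card ≤ 37 * t := by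
      have := hsm.card_le
      omega
    set wt : κ → ℝ := fun e => ((1 : ℝ) / 2) ^ (hits (Z e) (g e) A ρ) with hwt
    have hwt0 : ∀ e, 0 ≤ wt e := fun e => by positivity
    set Φ := ∑ e ∈ 𝓔, wt e with hΦdef
    have hΦ0 : 0 ≤ Φ := Finset.sum_nonneg (fun e _ => hwt0 e)
    -- the weight of a literal
    set S : V × Bool → ℝ := fun p => ∑ e ∈ 𝓔, if p.1 ∈ Z e \ A ∧ g e p.1 = p.2 then wt e else 0
      with hS
    have hSsum : ((w : ℝ) / 2) * Φ ≤ ∑ p : V × Bool, S p := by
      have h1 : ∑ p : V × Bool, S p = ∑ e ∈ 𝓔, wt e * ((Z e \ A).card : ℝ) := by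
        rw [hS, Finset.sum_comm]
        refine Finset.sum_congr rfl (fun e _ => ?_)
        rw [Fintype.sum_prod_type]
        have h2 : ∀ i : V, (∑ v : Bool, if i ∈ Z e \ A ∧ g e i = v then wt e else 0) =
            if i ∈ Z e \ A then wt e else 0 := by
          intro i
          by_cases hi : i ∈ Z e \ A
          · simp only [hi, true_and, if_true]
            rw [Finset.sum_ite_eq]
            simp
          · simp [hi]
        rw [Finset.sum_congr rfl (fun i _ => h2 i), ← Finset.sum_filter, Finset.sum_const,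
          nsmul_eq_mul, mul_comm]
        congr 3
        ext i
        simp
      rw [h1, hΦdef, Finset.mul_sum]
      refine Finset.sum_le_sum (fun e he => ?_)
      rw [mul_comm]
      refine mul_le_mul_of_nonneg_left ?_ (hwt0 e)
      have h2 := hZ e he
      have h4 : (Z e).card ≤ (Z e \ A).card + A.card := card_le_card_sdiff_add_card
      have h5 : w ≤ 2 * (Z e \ A).card := by omega
      have h6 : (w : ℝ) ≤ 2 * ((Z e \ A).card : ℝ) := by exact_mod_cast h5
      linarith
    have : Nonempty V := Fintype.card_pos_iff.mp hV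
    have hNpos : (0 : ℝ) < N := by exact_mod_cast hV
    obtain ⟨⟨i, v⟩, -, hiv⟩ : ∃ p ∈ (univ : Finset (V × Bool)), (w : ℝ) * Φ / (4 * N) ≤ S p := by
      refine Finset.exists_le_of_sum_le (f := fun _ => (w : ℝ) * Φ / (4 * N)) univ_nonempty ?_
      rw [Finset.sum_const, card_univ, Fintype.card_prod, Fintype.card_bool, nsmul_eq_mul]
      refine le_trans (le_of_eq ?_) hSsum
      push_cast
      rw [← hN]
      field_simp
      ring
    obtain ⟨B, hBcl, hBs, hBk⟩ := exists_closed (q := q) hE (by omega) hsm i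
    have hiB : i ∈ B := hBs (mem_insert_self _ _)
    have hAB : A ⊆ B := (subset_insert i A).trans hBs
    have hBq : (inside vs B).card ≤ q := by
      have := hBk.inside_le
      omega
    obtain ⟨σ, hσA, hv1, hv2⟩ := exists_ext hcl hBq hval
    set τ : V → Bool := if σ i = v then σ else MP86d903.flip A σ with hτ
    have hτA : ∀ j ∈ A, τ j = ρ j := by
      intro j hj
      rw [hτ]
      split_ifs
      · exact hσA j hj
      · unfold MP86d903.flip
        rw [if_pos hj]
        exact hσA j hj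
    have hτv : Valid vs ng τ B := by
      rw [hτ]
      split_ifs
      · exact hv1
      · exact hv2
    have hτi : i ∉ A → τ i = v := by
      intro hi
      rw [hτ]
      split_ifs with h
      · exact h
      · unfold MP86d903.flip
        rw [if_neg hi]
        cases hs : σ i <;> cases v <;> simp_all
    refine ⟨B, τ, hBcl, hBk, hτv, ?_⟩
    have hle : ∀ e ∈ 𝓔, ((1 : ℝ) / 2) ^ (hits (Z e) (g e) B τ) ≤
        wt e - (if i ∈ Z e \ A ∧ g e i = v then wt e else 0) / 2 := by
      intro e he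
      split_ifs with h
      · obtain ⟨h1, h2⟩ := h
        obtain ⟨h1, h4⟩ := mem_sdiff.mp h1
        have h5 := hits_succ (g := g e) (ρ := ρ) hAB hτA h4 hiB h1 ((hτi h4).trans h2.symm)
        have h6 : ((1 : ℝ) / 2) ^ (hits (Z e) (g e) B τ) ≤
            ((1 : ℝ) / 2) ^ (hits (Z e) (g e) A ρ + 1) :=
          pow_le_pow_of_le_one (by norm_num) (by norm_num) h5
        rw [pow_succ] at h6
        simp only [hwt]
        linarith
      · have h5 := hits_mono (Z := Z e) (g := g e) (ρ := ρ) hAB hτA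
        have h6 : ((1 : ℝ) / 2) ^ (hits (Z e) (g e) B τ) ≤
            ((1 : ℝ) / 2) ^ (hits (Z e) (g e) A ρ) :=
          pow_le_pow_of_le_one (by norm_num) (by norm_num) h5
        simp only [hwt]
        linarith
    have hsum := Finset.sum_le_sum hle
    rw [Finset.sum_sub_distrib, ← Finset.sum_div] at hsum
    have hSv : S (i, v) = ∑ e ∈ 𝓔, if i ∈ Z e \ A ∧ g e i = v then wt e else 0 := rfl
    rw [← hSv, ← hΦdef] at hsum
    have hfac : 0 ≤ 1 - (w : ℝ) / (8 * N) := by
      rw [sub_nonneg, div_le_one (by positivity)]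
      have : (w : ℝ) ≤ N := by exact_mod_cast hw
      linarith
    calc _ ≤ Φ - S (i, v) / 2 := hsum
      _ ≤ Φ - ((w : ℝ) * Φ / (4 * N)) / 2 := by linarith
      _ = Φ * (1 - w / (8 * N)) := by
        field_simp
        ring
      _ ≤ (𝓔.card * (1 - w / (8 * N)) ^ t) * (1 - w / (8 * N)) :=
        mul_le_mul_of_nonneg_right hΦ hfac
      _ = 𝓔.card * (1 - w / (8 * N)) ^ (t + 1) := by
        rw [pow_succ]
        ring

/-- All inequalities of a small set get many hits. -/
theorem exists_root {κ : Type} {R M : ℕ} (h3 : ∀ c, (vs c).card = 3) (hE : Exp vs R)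
    (hq : 2 * M ≤ q) (hR : 2 * (M + 1) + q ≤ R) (𝓔 : Finset κ) (Z : κ → Finset V) (g : κ → V → Bool) {w h t : ℕ}
    (hZ : ∀ e ∈ 𝓔, w ≤ (Z e).card) (hw : w ≤ Fintype.card V) (hV : 0 < Fintype.card V)
    (htM : t ≤ M) (htw : 74 * t ≤ w)
    (hsmall : (𝓔.card : ℝ) * (1 - w / (8 * Fintype.card V)) ^ t * 2 ^ h < 2) :
    ∃ (A : Finset V) (ρ : V → Bool), Closed vs q A ∧ Sm vs t A ∧ Valid vs ng ρ A ∧
      ∀ e ∈ 𝓔, h ≤ hits (Z e) (g e) A ρ := by
  classical
  obtain ⟨A, ρ, hcl, hsm, hval, hsum⟩ := greedy (ng := ng) h3 hE hq hR 𝓔 Z g hZ hw hV t htM htw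
  refine ⟨A, ρ, hcl, hsm, hval, fun e he => ?_⟩
  by_contra hcon
  rw [not_le] at hcon
  set x := hits (Z e) (g e) A ρ with hx
  have h1 : ((1 : ℝ) / 2) ^ x ≤
      ∑ e ∈ 𝓔, ((1 : ℝ) / 2) ^ (hits (Z e) (g e) A ρ) :=
    Finset.single_le_sum (f := fun e => ((1 : ℝ) / 2) ^ (hits (Z e) (g e) A ρ))
      (fun _ _ => pow_nonneg (by norm_num) _) he
  have h2 := h1.trans hsum
  have h4 : ((1 : ℝ) / 2) ^ x * 2 ^ h < 2 :=
    lt_of_le_of_lt (mul_le_mul_of_nonneg_right h2 (by positivity)) hsmall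
  have h5 : (2 : ℝ) ^ (x + 1) ≤ 2 ^ h := pow_le_pow_right₀ (by norm_num) hcon
  have h6 : ((1 : ℝ) / 2) ^ x * 2 ^ (x + 1) = 2 := by
    rw [pow_succ, ← mul_assoc, ← mul_pow]
    norm_num
  have h7 : ((1 : ℝ) / 2) ^ x * 2 ^ (x + 1) ≤ ((1 : ℝ) / 2) ^ x * 2 ^ h :=
    mul_le_mul_of_nonneg_left h5 (by positivity)
  linarith

end Helper80.SR
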