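import Pool.Agent.Helper80.SR.Fam

/-!
Halving the slack of an inequality, and the saturation rule.
-/

open Finset MP86d903

namespace Helper80.SR

variable {ι V : Type} [DecidableEq ι] [Fintype V] [DecidableEq V] [Fintype ι]
  {vs ng : ι → Finset V} {q : ℕ} {A₀ : Finset V} {ρ₀ : V → Bool} {K : ℕ}

/-- The doubled value of the literal of the variable `i` in an inequality with the
coefficients `a`. -/
def uu (a : V → ℤ) (C : Finset V) (τ : V → Bool) (i : V) : ℤ :=
  if 0 ≤ a i then pt C τ i else 2 - pt C τ i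

theorem uu_nonneg (a : V → ℤ) (C : Finset V) (τ : V → Bool) (i : V) : 0 ≤ uu a C τ i := by
  have h1 := pt_nonneg C τ i
  have h2 := pt_le_two C τ i
  unfold uu
  split_ifs <;> omega

theorem uu_out (a : V → ℤ) {C : Finset V} (τ : V → Bool) {i : V} (hi : i ∉ C) :
    uu a C τ i = 1 := by
  unfold uu pt
  rw [if_neg hi]
  split_ifs <;> rfl

theorem uu_in (a : V → ℤ) {C : Finset V} (τ : V → Bool) {i : V} (hi : i ∈ C) :
    uu a C τ i = 0 ∨ uu a C τ i = 2 := by
  unfold uu pt
  rw [if_pos hi]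
  split_ifs <;> simp

theorem uu_congr (a : V → ℤ) {C C' : Finset V} {τ τ' : V → Bool} {i : V}
    (h : i ∈ C ↔ i ∈ C') (hτ : τ i = τ' i) : uu a C τ i = uu a C' τ' i := by
  unfold uu pt
  simp only [h, hτ]

theorem uu_sign {a a' : V → ℤ} {i : V} (h : 0 ≤ a i ↔ 0 ≤ a' i) (C : Finset V) (τ : V → Bool) :
    uu a C τ i = uu a' C τ i := by
  unfold uu
  simp only [h]

theorem coef_mul (a : V → ℤ) (C : Finset V) (τ : V → Bool) (i : V) :
    a i * pt C τ i = |a i| * uu a C τ i + 2 * min (a i) 0 := by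
  unfold uu
  split_ifs with h
  · rw [abs_of_nonneg h, min_eq_right h]
    ring
  · rw [abs_of_neg (by omega), min_eq_left (by omega)]
    ring

theorem sum_uu (a : V → ℤ) (C : Finset V) (τ : V → Bool) :
    ∑ i, a i * pt C τ i = ∑ i, |a i| * uu a C τ i + 2 * ∑ i, min (a i) 0 := by
  rw [mul_sum, ← sum_add_distrib]
  exact sum_congr rfl (fun i _ => coef_mul a C τ i)

theorem uu_add {A B : Finset V} {σ ρ : V → Bool} (hAB : A ⊆ B) (h : ∀ i ∈ A, σ i = ρ i)
    (a : V → ℤ) (i : V) :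
    uu a B σ i + uu a B (MP86d903.flip A σ) i = 2 * uu a A ρ i := by
  have := pt_add_pt_flip hAB h i
  unfold uu
  split_ifs <;> omega

/-- The slack of an inequality without the term of `j`. -/
def slack (a : V → ℤ) (j : V) (C : Finset V) (τ : V → Bool) : ℤ :=
  ∑ i ∈ univ.erase j, |a i| * uu a C τ i

theorem halving {R M : ℕ} (h3 : ∀ c, (vs c).card = 3) (hE : Exp vs R) (hq : 2 * M ≤ q)
    (hR : 2 * (M + 1) + q ≤ R) (hM : K + 1 ≤ M) {A : Finset V} {ρ : V → Bool}
    (hF : Fam vs ng q A₀ ρ₀ K A ρ) {j : V} (hjA : j ∉ A) (a : V → ℤ) {θ : ℤ} (hθ0 : 0 ≤ θ)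
    {H T : Finset V} (hjH : j ∈ H) (hθ : ∀ i ∉ H, |a i| ≤ θ) (hT : T ⊆ A₀)
    (hT2 : ∀ i ∈ T, uu a A₀ ρ₀ i = 2) (hTs : 3 * θ ≤ 2 * ∑ i ∈ T, |a i|)
    (hK : 19 * (A₀ ∪ H).card ≤ K) :
    ∃ (A' : Finset V) (τ : V → Bool), Fam vs ng q A₀ ρ₀ K A' τ ∧ j ∈ A' ∧ uu a A' τ j = 0 ∧
      slack a j A' τ ≤ 2 * slack a j A ρ ∧ ∀ i ∈ A ∩ H, i ∈ A' ∧ τ i = ρ i := by
  classical
  obtain ⟨hcl, h0A, hsm, hval, hρ₀⟩ := hF
  obtain ⟨B, hBcl, hBs, hBk⟩ := exists_closed (q := q) hE (by omega) hsm j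
  have hjB : j ∈ B := hBs (mem_insert_self _ _)
  have hAB : A ⊆ B := (subset_insert j A).trans hBs
  have hBq : (inside vs B).card ≤ q := by
    have := hBk.inside_le
    omega
  obtain ⟨σ, hσA, hv1, hv2⟩ := exists_ext hcl hBq hval
  obtain ⟨τ, τ', hτA, hτv, hτj, hsum⟩ : ∃ τ τ' : V → Bool, (∀ i ∈ A, τ i = ρ i) ∧
      Valid vs ng τ B ∧ uu a B τ j = 0 ∧
      ∀ i, uu a B τ i + uu a B τ' i = 2 * uu a A ρ i := by
    by_cases h : uu a B σ j = 0
    · exact ⟨σ, MP86d903.flip A σ, hσA, hv1, h, fun i => uu_add hAB hσA a i⟩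
    · refine ⟨MP86d903.flip A σ, σ, ?_, hv2, ?_, ?_⟩
      · intro i hi
        unfold MP86d903.flip
        rw [if_pos hi]
        exact hσA i hi
      · have h1 := uu_add hAB hσA a j
        rw [uu_out a ρ hjA] at h1
        have h2 := (uu_in a σ hjB).resolve_left h
        omega
      · intro i
        rw [add_comm]
        exact uu_add hAB hσA a i
  have hS : slack a j B τ + slack a j B τ' = 2 * slack a j A ρ := by
    unfold slack
    rw [← sum_add_distrib, mul_sum]
    refine sum_congr rfl (fun i _ => ?_)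
    rw [← mul_add, hsum i]
    ring
  have hS' : 2 * ∑ i ∈ T, |a i| ≤ slack a j B τ' := by
    have h1 : T ⊆ univ.erase j := by
      intro i hi
      refine mem_erase.mpr ⟨?_, mem_univ _⟩
      rintro rfl
      exact hjA (h0A (hT hi))
    have h2 : 2 * ∑ i ∈ T, |a i| = ∑ i ∈ T, |a i| * uu a B τ' i := by
      rw [mul_sum]
      refine sum_congr rfl (fun i hi => ?_)
      have h3 : uu a A ρ i = uu a A₀ ρ₀ i := by
        have hi0 := hT hi
        exact uu_congr a ⟨fun _ => hi0, fun _ => h0A hi0⟩ (hρ₀ i hi0)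
      have h4 : uu a B τ i = uu a A ρ i := by
        have hiA := h0A (hT hi)
        exact uu_congr a ⟨fun _ => hiA, fun _ => hAB hiA⟩ (hτA i hiA)
      have h5 := hsum i
      have h6 := hT2 i hi
      have h7 : uu a B τ' i = 2 := by omega
      rw [h7]
      ring
    rw [h2]
    exact sum_le_sum_of_subset_of_nonneg h1
      (fun i _ _ => mul_nonneg (abs_nonneg _) (uu_nonneg _ _ _ _))
  have hS0 : 0 ≤ slack a j B τ' :=
    Finset.sum_nonneg (fun i _ => mul_nonneg (abs_nonneg _) (uu_nonneg _ _ _ _))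
  by_cases hrank : B.card ≤ K + (inside vs B).card
  · refine ⟨B, τ, ⟨hBcl, h0A.trans hAB, ⟨hrank, hBk.2⟩, hτv, fun i hi => ?_⟩, hjB, hτj, by omega,
      fun i hi => ?_⟩
    · rw [hτA i (h0A hi)]
      exact hρ₀ i hi
    · have hi1 := (mem_inter.mp hi).1
      exact ⟨hAB hi1, hτA i hi1⟩
  · obtain ⟨Q, hQB, hQX, hQ3, hQcl, hQrank⟩ := forget (X := A₀ ∪ H) h3 hBcl hBk.2 (by omega)
    have hkeep : ∀ i ∈ B, i ∈ A₀ ∪ H → i ∈ B \ Q := by
      intro i hiB hiX
      refine mem_sdiff.mpr ⟨hiB, fun hiQ => ?_⟩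
      exact (disjoint_left.mp hQX hiQ) hiX
    have hin : (inside vs (B \ Q)).card ≤ (inside vs B).card := by
      refine card_le_card (fun c hc => ?_)
      rw [mem_inside] at hc ⊢
      exact hc.trans sdiff_subset
    have hsm' : Sm vs K (B \ Q) := by
      refine ⟨by have := hBk.1; omega, ?_⟩
      have h1 : (inside vs B).card ≤ R := by omega
      rcases (inside vs (B \ Q)).eq_empty_or_nonempty with h0 | hne
      · rw [h0]
        simp
      · have h2 := hE (inside vs (B \ Q)) (by omega)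
        have h4 : ((inside vs (B \ Q)).biUnion vs).card ≤ (B \ Q).card := by
          refine card_le_card ?_
          intro v hv
          obtain ⟨c, hc, hv⟩ := mem_biUnion.mp hv
          exact (mem_inside.mp hc) hv
        omega
    refine ⟨B \ Q, τ, ⟨hQcl, ?_, hsm', fun c hc => hτv c (hc.trans sdiff_subset), ?_⟩,
      hkeep j hjB (mem_union_right _ hjH), ?_, ?_, ?_⟩
    · intro i hi
      exact hkeep i (hAB (h0A hi)) (mem_union_left _ hi)
    · intro i hi
      rw [hτA i (h0A hi)]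
      exact hρ₀ i hi
    · rw [← hτj]
      refine uu_congr a ⟨fun _ => hjB, fun _ => hkeep j hjB (mem_union_right _ hjH)⟩ rfl
    · -- the value of the slack
      have h1 : slack a j (B \ Q) τ ≤ slack a j B τ + ∑ i ∈ Q, |a i| := by
        have h2 : ∀ i, |a i| * uu a (B \ Q) τ i ≤
            |a i| * uu a B τ i + if i ∈ Q then |a i| else 0 := by
          intro i
          by_cases hi : i ∈ Q
          · rw [if_pos hi, uu_out a τ (fun h => (mem_sdiff.mp h).2 hi)]
            have := mul_nonneg (abs_nonneg (a i)) (uu_nonneg a B τ i)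
            linarith
          · rw [if_neg hi, add_zero]
            refine le_of_eq ?_
            congr 1
            exact uu_congr a ⟨fun h => (mem_sdiff.mp h).1, fun h => mem_sdiff.mpr ⟨h, hi⟩⟩ rfl
        have h4 : slack a j (B \ Q) τ ≤ slack a j B τ +
            ∑ i ∈ univ.erase j, (if i ∈ Q then |a i| else 0) := by
          unfold slack
          rw [← sum_add_distrib]
          exact sum_le_sum (fun i _ => h2 i)
        have h5 : ∑ i ∈ univ.erase j, (if i ∈ Q then |a i| else 0) ≤ ∑ i ∈ Q, |a i| := by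
          rw [← sum_filter]
          refine sum_le_sum_of_subset_of_nonneg ?_ (fun i _ _ => abs_nonneg _)
          intro i hi
          exact (mem_filter.mp hi).2
        linarith
      have h2 : ∑ i ∈ Q, |a i| ≤ 3 * θ := by
        have h4 : ∑ i ∈ Q, |a i| ≤ Q.card • θ := by
          refine sum_le_card_nsmul _ _ _ (fun i hi => hθ i (fun hiH => ?_))
          exact (disjoint_left.mp hQX hi) (mem_union_right _ hiH)
        rw [nsmul_eq_mul] at h4
        have h5 : (Q.card : ℤ) ≤ 3 := by exact_mod_cast hQ3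
        nlinarith
      linarith
    · intro i hi
      obtain ⟨hi1, hi2⟩ := mem_inter.mp hi
      exact ⟨hkeep i (hAB hi1) (mem_union_right _ hi2), hτA i hi1⟩

/-- The big coefficients lie in a small set, and the other coefficients are small compared to
the true literals of the root. -/
def Root (A₀ : Finset V) (ρ₀ : V → Bool) (K : ℕ) (a : V → ℤ) (D : ℤ) : Prop :=
  ∃ (θ : ℤ) (H T : Finset V), 0 ≤ θ ∧ (∀ i, D ≤ |a i| → i ∈ H) ∧ (∀ i ∉ H, |a i| ≤ θ) ∧
    T ⊆ A₀ ∧ (∀ i ∈ T, uu a A₀ ρ₀ i = 2) ∧ 3 * θ ≤ 2 * ∑ i ∈ T, |a i| ∧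
    19 * (A₀ ∪ H).card ≤ K

theorem Root.mono {K' : ℕ} (h : K ≤ K') {a : V → ℤ} {D : ℤ} (hr : Root A₀ ρ₀ K a D) :
    Root A₀ ρ₀ K' a D := by
  obtain ⟨θ, H, T, h1, h2, h3, h4, h5, h6, h7⟩ := hr
  exact ⟨θ, H, T, h1, h2, h3, h4, h5, h6, h7.trans h⟩

theorem sum_split (a : V → ℤ) (j : V) (C : Finset V) (τ : V → Bool) :
    ∑ i, |a i| * uu a C τ i = |a j| * uu a C τ j + slack a j C τ := by
  unfold slack
  exact (Finset.add_sum_erase univ (fun i => |a i| * uu a C τ i) (mem_univ j)).symm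

/-- The saturation rule. -/
theorem holds_sat {R M : ℕ} (h3 : ∀ c, (vs c).card = 3) (hE : Exp vs R) (hq : 2 * M ≤ q)
    (hR : 2 * (M + 1) + q ≤ R) (hM : K + 1 ≤ M) {a c : V → ℤ} {b b' D : ℤ}
    (hD : D = b - ∑ i, min (a i) 0) (hD0 : 0 ≤ D)
    (hc : ∀ i, c i = max (-D) (min (a i) D)) (hb' : b' = D + ∑ i, min (c i) 0)
    {A : Finset V} {ρ : V → Bool} (hF : Fam vs ng q A₀ ρ₀ K A ρ)
    (hviol : ∑ i, c i * pt A ρ i < 2 * b') (hroot : 0 < D → Root A₀ ρ₀ K c D)
    (hH : Holds vs ng q A₀ ρ₀ K a b) : False := by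
  classical
  rw [sum_uu, hb'] at hviol
  have hv1 : ∑ i, |c i| * uu c A ρ i < 2 * D := by linarith
  have hDpos : 0 < D := by
    have : 0 ≤ ∑ i, |c i| * uu c A ρ i :=
      Finset.sum_nonneg (fun i _ => mul_nonneg (abs_nonneg _) (uu_nonneg _ _ _ _))
    omega
  have hsign : ∀ i, (0 ≤ c i ↔ 0 ≤ a i) := by
    intro i
    rw [hc i]
    constructor
    · intro h
      by_contra hcon
      have : max (-D) (min (a i) D) < 0 := max_lt (by omega) (by
        rw [min_lt_iff]
        exact Or.inl (by omega))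
      omega
    · intro h
      exact le_max_of_le_right (le_min h hD0)
  have habs : ∀ i, |c i| = min |a i| D := by
    intro i
    rw [hc i]
    rcases le_total 0 (a i) with h | h
    · rw [abs_of_nonneg h, max_eq_right (by
        have : 0 ≤ min (a i) D := le_min h hD0
        omega), abs_of_nonneg (le_min h hD0)]
    · rw [abs_of_nonpos h, min_eq_left (by omega : a i ≤ D)]
      rcases le_total (-D) (a i) with h2 | h2
      · rw [max_eq_right h2, abs_of_nonpos h, min_eq_left (by omega)]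
      · rw [max_eq_left h2, abs_of_nonpos (by omega), min_eq_right (by omega)]
        ring
  have huu : ∀ (C : Finset V) (τ : V → Bool) (i : V), uu a C τ i = uu c C τ i :=
    fun C τ i => uu_sign (hsign i).symm C τ
  have hval : ∀ (C : Finset V) (τ : V → Bool), Fam vs ng q A₀ ρ₀ K C τ →
      2 * D ≤ ∑ i, |a i| * uu c C τ i := by
    intro C τ hC
    have h1 := hH C τ hC
    rw [sum_uu] at h1
    have h2 : ∑ i, |a i| * uu a C τ i = ∑ i, |a i| * uu c C τ i :=
      sum_congr rfl (fun i _ => by rw [huu])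
    rw [h2] at h1
    rw [hD]
    linarith
  have hcle : ∀ i, |c i| ≤ D := fun i => by
    rw [habs i]
    exact min_le_right _ _
  -- the variable with a big coefficient and the value one half
  obtain ⟨j, hj⟩ : ∃ j, |c j| * uu c A ρ j < |a j| * uu c A ρ j := by
    by_contra hcon
    push Not at hcon
    have := sum_le_sum (s := univ) (fun i _ => hcon i)
    have := hval A ρ hF
    omega
  have huj0 := uu_nonneg c A ρ j
  have hcj : |c j| = D := by
    have h1 : |c j| ≠ |a j| := by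
      intro h
      rw [h] at hj
      exact lt_irrefl _ hj
    have h2 := habs j
    rcases le_total |a j| D with h | h
    · rw [min_eq_left h] at h2
      exact absurd h2 h1
    · rw [min_eq_right h] at h2
      exact h2
  have hterm : ∀ i, 0 ≤ |c i| * uu c A ρ i := fun i =>
    mul_nonneg (abs_nonneg _) (uu_nonneg _ _ _ _)
  have hjle : |c j| * uu c A ρ j ≤ ∑ i, |c i| * uu c A ρ i :=
    single_le_sum (f := fun i => |c i| * uu c A ρ i) (fun i _ => hterm i) (mem_univ j)
  have hjA : j ∉ A := by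
    intro hjA
    rcases uu_in c ρ hjA with h | h
    · rw [h, mul_zero, mul_zero] at hj
      exact lt_irrefl _ hj
    · rw [h, hcj] at hjle
      omega
  have huj : uu c A ρ j = 1 := uu_out c ρ hjA
  have hsplit := sum_split c j A ρ
  rw [huj, hcj, mul_one] at hsplit
  have hslack : slack c j A ρ < D := by omega
  -- the other big coefficients have the value zero
  have hbig0 : ∀ i, i ≠ j → D ≤ |c i| → uu c A ρ i = 0 := by
    intro i hij hi
    by_contra hcon
    have h1 : 1 ≤ uu c A ρ i := by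
      have := uu_nonneg c A ρ i
      omega
    have h2 : |c i| * uu c A ρ i ≤ slack c j A ρ :=
      single_le_sum (f := fun i => |c i| * uu c A ρ i) (fun i _ => hterm i)
        (mem_erase.mpr ⟨hij, mem_univ _⟩)
    nlinarith
  obtain ⟨θ, H, T, hθ0, hbig, hθ, hT, hT2, hTs, hK⟩ := hroot hDpos
  obtain ⟨A', τ, hF', hjA', hτj, hsl, hkeep⟩ := halving h3 hE hq hR hM hF hjA c hθ0
    (hbig j hcj.ge) hθ hT hT2 hTs hK
  have h1 := hval A' τ hF'
  have h2 : ∑ i, |a i| * uu c A' τ i ≤ slack c j A' τ := by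
    have h4 : ∑ i, |a i| * uu c A' τ i = ∑ i ∈ univ.erase j, |a i| * uu c A' τ i := by
      rw [← Finset.add_sum_erase univ _ (mem_univ j), hτj]
      ring
    rw [h4]
    refine sum_le_sum (fun i hi => ?_)
    have hij := (mem_erase.mp hi).1
    by_cases hbi : D ≤ |c i|
    · have h5 := hbig0 i hij hbi
      have hiA : i ∈ A := by
        by_contra hiA
        rw [uu_out c ρ hiA] at h5
        exact one_ne_zero h5
      obtain ⟨h6, h7⟩ := hkeep i (mem_inter.mpr ⟨hiA, hbig i hbi⟩)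
      have h8 : uu c A' τ i = 0 := by
        rw [← h5]
        exact uu_congr c ⟨fun _ => hiA, fun _ => h6⟩ h7
      rw [h8]
      simp
    · have h5 := habs i
      rcases le_total |a i| D with h | h
      · rw [min_eq_left h] at h5
        rw [h5]
      · rw [min_eq_right h] at h5
        omega
  omega

/-- The division rule at a point where a variable with a big coefficient has the value
one half. -/
theorem holds_div_big {R M : ℕ} (h3 : ∀ c, (vs c).card = 3) (hE : Exp vs R) (hq : 2 * M ≤ q)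
    (hR : 2 * (M + 1) + q ≤ R) (hM : K + 1 ≤ M) {a a' : V → ℤ} {b b' : ℤ} {c : ℕ}
    (hc : 1 ≤ c) (ha : ∀ i, a i = c * a' i) (hb : b' = ⌈(b : ℚ) / c⌉)
    {A : Finset V} {ρ : V → Bool} (hF : Fam vs ng q A₀ ρ₀ K A ρ)
    (hviol : ∑ i, a' i * pt A ρ i < 2 * b') {j : V} (hjA : j ∉ A)
    (hj : b' - ∑ i, min (a' i) 0 ≤ |a' j|)
    (hroot : Root A₀ ρ₀ K a' (b' - ∑ i, min (a' i) 0))
    (hH : Holds vs ng q A₀ ρ₀ K a b) : False := by
  classical
  obtain ⟨θ, H, T, hθ0, hbig, hθ, hT, hT2, hTs, hK⟩ := hroot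
  obtain ⟨A', τ, hF', hjA', hτj, hsl, -⟩ := halving h3 hE hq hR hM hF hjA a' hθ0
    (hbig j hj) hθ hT hT2 hTs hK
  set D := b' - ∑ i, min (a' i) 0 with hD
  rw [sum_uu, sum_split a' j A ρ, uu_out a' ρ hjA, mul_one] at hviol
  have h1 : slack a' j A ρ ≤ D - 1 := by omega
  have hc0 : (0 : ℤ) < c := by exact_mod_cast hc
  have hblt : (c : ℤ) * (b' - 1) < b := by
    have : (b' : ℚ) - 1 < (b : ℚ) / c := by
      rw [hb]
      have := Int.ceil_lt_add_one ((b : ℚ) / c)
      linarith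
    rw [lt_div_iff₀ (by exact_mod_cast hc)] at this
    have h2 : (((b' - 1) * c : ℤ) : ℚ) < (b : ℚ) := by
      push_cast
      exact this
    have h4 : (b' - 1) * (c : ℤ) < b := by exact_mod_cast h2
    rw [mul_comm]
    exact h4
  have h2 := hH A' τ hF'
  have h4 : ∑ i, a i * pt A' τ i = c * ∑ i, a' i * pt A' τ i := by
    rw [mul_sum]
    refine sum_congr rfl (fun i _ => ?_)
    rw [ha i]
    ring
  rw [h4] at h2
  have h5 : ∑ i, a' i * pt A' τ i ≤ 2 * (b' - 1) := by
    rw [sum_uu, sum_split a' j A' τ, hτj, mul_zero, zero_add]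
    omega
  have h6 := mul_le_mul_of_nonneg_left h5 hc0.le
  have h7 : (c : ℤ) * (2 * (b' - 1)) = 2 * (c * (b' - 1)) := by ring
  omega

/-- An inequality satisfied by the true literals of the root. -/
theorem holds_killed {a : V → ℤ} {b : ℤ} {T : Finset V} (hT : T ⊆ A₀)
    (hT2 : ∀ i ∈ T, uu a A₀ ρ₀ i = 2) (hsum : b - ∑ i, min (a i) 0 ≤ ∑ i ∈ T, |a i|) :
    Holds vs ng q A₀ ρ₀ K a b := by
  classical
  rintro A ρ ⟨-, h0A, -, -, hρ⟩
  rw [sum_uu]
  have h1 : 2 * ∑ i ∈ T, |a i| = ∑ i ∈ T, |a i| * uu a A ρ i := by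
    rw [mul_sum]
    refine sum_congr rfl (fun i hi => ?_)
    have h2 : uu a A ρ i = uu a A₀ ρ₀ i :=
      uu_congr a ⟨fun _ => hT hi, fun _ => h0A (hT hi)⟩ (hρ i (hT hi))
    rw [h2, hT2 i hi]
    ring
  have h2 : ∑ i ∈ T, |a i| * uu a A ρ i ≤ ∑ i, |a i| * uu a A ρ i :=
    sum_le_sum_of_subset_of_nonneg (subset_univ _)
      (fun i _ _ => mul_nonneg (abs_nonneg _) (uu_nonneg _ _ _ _))
  omega

end Helper80.SR
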