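import Pool.Agent.Helper80.SR.Cl

/-!
Extension of a valid assignment together with its complement (a signed form of the theorem of
Seymour on hypergraphs without a good two-colouring).
-/

open Finset MP86d903

namespace Helper80.SR

variable {ι V : Type} [DecidableEq ι] [Fintype V] [DecidableEq V] {vs ng : ι → Finset V}

theorem seymour (A : Finset V) (ρ : V → Bool) (𝒮 : Finset ι)
    (h : ∀ S ⊆ 𝒮, S.Nonempty → S.card < (S.biUnion vs \ A).card) :
    ∃ σ : V → Bool, (∀ i ∈ A, σ i = ρ i) ∧
      ∀ c ∈ 𝒮, ∃ i ∈ vs c \ A, ∃ j ∈ vs c \ A, Lit ng σ c i ∧ ¬ Lit ng σ c j := by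
  classical
  induction 𝒮 using Finset.strongInduction with
  | H 𝒮 ih =>
    rcases 𝒮.eq_empty_or_nonempty with rfl | hne
    · exact ⟨ρ, fun _ _ => rfl, fun c hc => absurd hc (notMem_empty c)⟩
    set N := 𝒮.biUnion vs \ A with hN
    have hcard := h 𝒮 (subset_refl _) hne
    rw [← hN] at hcard
    -- the sign of a variable in a clause
    set sg : ι → V → ℝ := fun c v => if v ∈ ng c then -1 else 1 with hsg
    -- a real vector in the kernel
    obtain ⟨y, hy0, hy⟩ : ∃ y : N → ℝ, y ≠ 0 ∧ ∀ c ∈ 𝒮,
        ∑ v : N, (if (v : V) ∈ vs c then sg c v * y v else 0) = 0 := by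
      set f : (N → ℝ) →ₗ[ℝ] (𝒮 → ℝ) :=
        { toFun := fun y c => ∑ v : N, (if (v : V) ∈ vs c then sg c v * y v else 0)
          map_add' := by
            intro y z
            ext c
            simp only [Pi.add_apply]
            rw [← Finset.sum_add_distrib]
            refine Finset.sum_congr rfl (fun v _ => ?_)
            split_ifs
            · ring
            · ring
          map_smul' := by
            intro r y
            ext c
            simp only [Pi.smul_apply, smul_eq_mul, RingHom.id_apply]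
            rw [Finset.mul_sum]
            refine Finset.sum_congr rfl (fun v _ => ?_)
            split_ifs
            · ring
            · ring } with hf
      have hlt : Module.finrank ℝ (𝒮 → ℝ) < Module.finrank ℝ (N → ℝ) := by
        rw [Module.finrank_fintype_fun_eq_card, Module.finrank_fintype_fun_eq_card,
          Fintype.card_coe, Fintype.card_coe]
        exact hcard
      have hker := LinearMap.ker_ne_bot_of_finrank_lt (f := f) hlt
      obtain ⟨y, hy, hy0⟩ := (Submodule.ne_bot_iff _).mp hker
      refine ⟨y, hy0, fun c hc => ?_⟩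
      have := congrFun (LinearMap.mem_ker.mp hy) ⟨c, hc⟩
      exact this
    -- the extension by zero
    set z : V → ℝ := fun v => if hv : v ∈ N then y ⟨v, hv⟩ else 0 with hz
    have hzN : ∀ v : N, z v = y v := by
      intro v
      simp only [hz, dif_pos v.2]
    have hz0 : ∀ v, v ∉ N → z v = 0 := by
      intro v hv
      simp only [hz, dif_neg hv]
    have hsum : ∀ c ∈ 𝒮, ∑ v ∈ vs c \ A, sg c v * z v = 0 := by
      intro c hc
      have h1 := hy c hc
      have h2 : ∑ v : N, (if (v : V) ∈ vs c then sg c v * y v else 0) =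
          ∑ v ∈ N, (if v ∈ vs c then sg c v * z v else 0) := by
        rw [← Finset.sum_coe_sort N]
        refine Finset.sum_congr rfl (fun v _ => ?_)
        rw [hzN]
      rw [h2, ← Finset.sum_filter] at h1
      rw [← h1]
      refine Finset.sum_congr ?_ (fun _ _ => rfl)
      ext v
      simp only [mem_sdiff, mem_filter, hN, mem_biUnion]
      constructor
      · rintro ⟨h3, h4⟩
        exact ⟨⟨⟨c, hc, h3⟩, h4⟩, h3⟩
      · rintro ⟨⟨-, h4⟩, h3⟩
        exact ⟨h3, h4⟩
    set 𝒮' := 𝒮.filter (fun c => ∀ v ∈ vs c \ A, z v = 0) with h𝒮'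
    have hss : 𝒮' ⊂ 𝒮 := by
      refine ⟨filter_subset _ _, fun hsub => hy0 ?_⟩
      ext v
      obtain ⟨hv1, hv2⟩ := mem_sdiff.mp v.2
      obtain ⟨c, hc, hvc⟩ := mem_biUnion.mp hv1
      have h1 := (mem_filter.mp (hsub hc)).2 v (mem_sdiff.mpr ⟨hvc, hv2⟩)
      rw [hzN] at h1
      exact h1
    obtain ⟨σ', hσ'A, hσ'⟩ := ih 𝒮' hss (fun S hS hSne => h S (hS.trans hss.1) hSne)
    refine ⟨fun i => if z i = 0 then σ' i else decide (0 < z i), ?_, ?_⟩
    · intro i hi
      have h1 : z i = 0 := hz0 i (fun h2 => (mem_sdiff.mp h2).2 hi)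
      simp only [h1, if_true]
      exact hσ'A i hi
    · intro c hc
      by_cases hcS : c ∈ 𝒮'
      · obtain ⟨i, hi, j, hj, hli, hlj⟩ := hσ' c hcS
        have h0 := (mem_filter.mp hcS).2
        refine ⟨i, hi, j, hj, ?_, ?_⟩
        · unfold Lit at hli ⊢
          simp only [h0 i hi, if_true]
          exact hli
        · unfold Lit at hlj ⊢
          simp only [h0 j hj, if_true]
          exact hlj
      · have h1 : ∃ v ∈ vs c \ A, sg c v * z v ≠ 0 := by
          by_contra hcon
          push Not at hcon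
          apply hcS
          refine mem_filter.mpr ⟨hc, fun v hv => ?_⟩
          have h2 := hcon v hv
          have h3 : sg c v ≠ 0 := by
            simp only [hsg]
            split_ifs <;> norm_num
          exact (mul_eq_zero.mp h2).resolve_left h3
        have h2 := hsum c hc
        obtain ⟨i, hi, hpos⟩ := Finset.exists_pos_of_sum_zero_of_exists_nonzero _ h2 h1
        have h2' : ∑ v ∈ vs c \ A, -(sg c v * z v) = 0 := by
          rw [Finset.sum_neg_distrib, h2, neg_zero]
        have h1' : ∃ v ∈ vs c \ A, -(sg c v * z v) ≠ 0 := by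
          obtain ⟨v, hv, hne'⟩ := h1
          exact ⟨v, hv, neg_ne_zero.mpr hne'⟩
        obtain ⟨j, hj, hneg⟩ := Finset.exists_pos_of_sum_zero_of_exists_nonzero _ h2' h1'
        refine ⟨i, hi, j, hj, ?_, ?_⟩
        · unfold Lit
          by_cases hng : i ∈ ng c
          · simp only [hsg, if_pos hng] at hpos
            have h3 : z i < 0 := by linarith
            simp [hng, h3.ne, h3.le]
          · simp only [hsg, if_neg hng] at hpos
            have h3 : 0 < z i := by linarith
            simp [hng, h3.ne', h3]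
        · unfold Lit
          by_cases hng : j ∈ ng c
          · simp only [hsg, if_pos hng] at hneg
            have h3 : 0 < z j := by linarith
            simp [hng, h3.ne', h3]
          · simp only [hsg, if_neg hng] at hneg
            have h3 : z j < 0 := by linarith
            simp [hng, h3.ne, h3.le]

/-- Extension of a valid assignment to a larger set, together with its complement. -/
theorem exists_ext [Fintype ι] {q : ℕ} {A B : Finset V} {ρ : V → Bool} (hA : Closed vs q A)
    (hB : (inside vs B).card ≤ q) (hρ : Valid vs ng ρ A) :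
    ∃ σ : V → Bool, (∀ i ∈ A, σ i = ρ i) ∧ Valid vs ng σ B ∧ Valid vs ng (MP86d903.flip A σ) B := by
  classical
  set 𝒮 := inside vs B \ inside vs A with h𝒮
  have hnot : ∀ c ∈ 𝒮, ¬ vs c ⊆ A := by
    intro c hc h
    exact (mem_sdiff.mp hc).2 (mem_inside.mpr h)
  obtain ⟨σ, hσA, hσ⟩ := seymour (vs := vs) (ng := ng) A ρ 𝒮 (by
    intro S hS hne
    refine hA S hne ?_ (fun c hc => hnot c (hS hc))
    exact (card_le_card (hS.trans sdiff_subset)).trans hB)
  refine ⟨σ, hσA, ?_, ?_⟩
  · intro c hc
    by_cases hcA : vs c ⊆ A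
    · obtain ⟨i, hi, hl⟩ := hρ c hcA
      exact ⟨i, hi, lit_congr (hσA i (hcA hi)).symm hl⟩
    · obtain ⟨i, hi, j, hj, hli, hlj⟩ := hσ c (mem_sdiff.mpr ⟨mem_inside.mpr hc,
        fun h => hcA (mem_inside.mp h)⟩)
      exact ⟨i, (mem_sdiff.mp hi).1, hli⟩
  · intro c hc
    by_cases hcA : vs c ⊆ A
    · obtain ⟨i, hi, hl⟩ := hρ c hcA
      refine ⟨i, hi, lit_congr ?_ hl⟩
      unfold MP86d903.flip
      rw [if_pos (hcA hi)]
      exact (hσA i (hcA hi)).symm
    · obtain ⟨i, hi, j, hj, hli, hlj⟩ := hσ c (mem_sdiff.mpr ⟨mem_inside.mpr hc,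
        fun h => hcA (mem_inside.mp h)⟩)
      exact ⟨j, (mem_sdiff.mp hj).1, lit_flip (mem_sdiff.mp hj).2 hlj⟩

end Helper80.SR
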